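import Pool.Agent.Lib.MP_d8f801_lc.SC.C.Emp

/-!
# SC/C: adding a point to the support (module C-Add)

`addc p i γ β η` (`i ∉ p.x`): the support is `insert i p.x`, `c γ i = β`, `F` has the value `η` at the pairs which contain `i`.

* `ok_addc`: by `ok_iff`. `K` for `a ∈ p.S` and `ξ = i`: `a` is not empty (`Sn`), `α ∈ a`, `(α, i)` has the value `η ≥ dl a`. `Bok`: `Bok.mono`
  (`b` and `t` are unchanged); for this first prove `le_addc`.
* `ex_pt`: if `ξ ∈ p.x` take `p`; otherwise `addc p ξ ⊥ ⊥ η` with `η` from `bd_hgt` (`c` unchanged: `p.c ⊥ ξ = ⊥` by `cv`).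
* `ex_c`: first add `γ` and `β` to the support (`ex_pt`); let `i < w1` be not in the support (`Iio w1` is not countable), `addc q i γ β η`.
-/

set_option autoImplicit false

universe u

namespace Pool.MP_d8f801_lc.SC

open Cardinal Set Filter

variable {X : Type u} [Stg X]

open Classical in
/-- add the point `i` -/
noncomputable def addc (p : Pre X) (i γ β η : X) : Pre X where
  x := insert i p.x
  F := fun α ξ => if α ∈ p.x ∧ ξ ∈ p.x then p.F α ξ else if α ∈ insert i p.x ∧ ξ ∈ insert i p.x then η else ⊥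
  c := fun α ξ => if α = γ ∧ ξ = i then β else p.c α ξ
  S := p.S
  b := p.b
  t := p.t

theorem le_addc {ty : Bool} {p : Pre X} (hp : Ok ty p) {i γ β η : X} (hi : i ∉ p.x) : Le (addc p i γ β η) p := by
  refine ⟨subset_insert i p.x, fun α hα ξ hξ => ?_, fun α hα ξ hξ => ?_, fun a _ => Iff.rfl,
    (Le.refl' hp.fit).b, fun _ _ _ _ => rfl⟩
  · simp only [addc]
    rw [if_pos ⟨hα, hξ⟩]
  · simp only [addc]
    rw [if_neg]
    rintro ⟨_, h⟩
    exact hi (h ▸ hξ)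

theorem ok_addc {ty : Bool} {p : Pre X} (hp : Ok ty p) {i γ β η : X} (hi : i ∉ p.x) (hη : η < w1)
    (hηp : ∀ a ∈ p.S, dl a ≤ η) (hβ : β = ⊥ ∨ (γ ∈ p.x ∧ γ < kk ∧ i < w1 ∧ β < γ)) : Ok ty (addc p i γ β η) := by
  have hf := hp.fit
  rw [ok_iff]
  refine ⟨⟨hf.xc.insert i, fun α ξ => ?_, fun α ξ h => ?_, fun ν j h => ?_, hf.Sc, hf.Sn,
    fun a ha => (hf.Sx a ha).trans (subset_insert i p.x), hf.St, fun a ha ξ hξ hr => ?_, hf.b0, hf.t0⟩,
    fun ht a ha => ?_⟩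
  · simp only [addc]
    split_ifs
    · exact hf.Fv α ξ
    · exact hη
    · exact bot_lt_w1
  · simp only [addc] at h ⊢
    split_ifs at h with h1 h2
    · exact ⟨Or.inr h1.1, Or.inr h1.2⟩
    · exact h2
    · exact absurd rfl h
  · by_cases h1 : ν = γ ∧ j = i
    · have hc : (addc p i γ β η).c ν j = β := by
        simp only [addc]
        rw [if_pos h1]
      rw [hc] at h ⊢
      rcases hβ with h2 | ⟨h2, h3, h4, h5⟩
      · exact absurd h2 h
      · rw [h1.1, h1.2]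
        exact ⟨Or.inr h2, Or.inl rfl, h3, h4, h5⟩
    · have hc : (addc p i γ β η).c ν j = p.c ν j := by
        simp only [addc]
        rw [if_neg h1]
      rw [hc] at h ⊢
      obtain ⟨h2, h3, h4, h5, h6⟩ := hf.cv ν j h
      exact ⟨Or.inr h2, Or.inr h3, h4, h5, h6⟩
  · rcases hξ with rfl | hξ
    · obtain ⟨α, hα⟩ := hf.Sn a ha
      refine ⟨α, hα, ?_⟩
      have hF : (addc p ξ γ β η).F α ξ = η := by
        simp only [addc]
        rw [if_neg (fun h => hi h.2), if_pos ⟨Or.inr (hf.Sx a ha hα), Or.inl rfl⟩]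
      rw [hF]
      exact hηp a ha
    · obtain ⟨α, hα, h⟩ := hf.K a ha ξ hξ hr
      refine ⟨α, hα, ?_⟩
      have hF : (addc p i γ β η).F α ξ = p.F α ξ := by
        simp only [addc]
        rw [if_pos ⟨hf.Sx a ha hα, hξ⟩]
      rw [hF]
      exact h
  · subst ht
    exact (hp.bok ha).mono ha (le_addc hp hi) rfl

theorem ex_pt {ty : Bool} {p : Pre X} (hp : Ok ty p) (ξ : X) : ∃ q, Ok ty q ∧ Le q p ∧ ξ ∈ q.x := by
  by_cases h : ξ ∈ p.x
  · exact ⟨p, hp, Le.refl' hp.fit, h⟩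
  · obtain ⟨η, h1, _, h3⟩ := bd_hgt hp.fit.Sc hp.Sct (bot_lt_w1 (X := X))
    exact ⟨addc p ξ ⊥ ⊥ η, ok_addc hp h h1 (fun a ha => (h3 a ha).le) (Or.inl rfl), le_addc hp h, Or.inl rfl⟩

theorem ex_c {ty : Bool} {p : Pre X} (hp : Ok ty p) {γ β : X} (hγ : γ < kk) (hβ : β < γ) :
    ∃ q, Ok ty q ∧ Le q p ∧ γ ∈ q.x ∧ β ∈ q.x ∧ ∃ i, i ∈ q.x ∧ i < w1 ∧ q.c γ i = β := by
  obtain ⟨q1, hq1, hl1, hg1⟩ := ex_pt hp γ
  obtain ⟨q2, hq2, hl2, hb2⟩ := ex_pt hq1 β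
  have hex : ∃ i : X, i < w1 ∧ i ∉ q2.x := by
    by_contra hcon
    apply Stg.w1_unc (X := X)
    refine hq2.fit.xc.mono fun i hi => ?_
    by_contra h
    exact hcon ⟨i, hi, h⟩
  obtain ⟨i, hi1, hi2⟩ := hex
  obtain ⟨η, h1, _, h3⟩ := bd_hgt hq2.fit.Sc hq2.Sct (bot_lt_w1 (X := X))
  have hg2 : γ ∈ q2.x := hl2.x hg1
  refine ⟨addc q2 i γ β η, ok_addc hq2 hi2 h1 (fun a ha => (h3 a ha).le) (Or.inr ⟨hg2, hγ, hi1, hβ⟩),
    Le.trans' hp.fit (Le.trans' hq1.fit (le_addc hq2 hi2) hl2) hl1, Or.inr hg2, Or.inr hb2, i, Or.inl rfl,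
    hi1, ?_⟩
  simp only [addc]
  rw [if_pos ⟨trivial, trivial⟩]

end Pool.MP_d8f801_lc.SC
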