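import Pool.Agent.Lib.MP_d8f801_lc.SC.C.Emp

/-!
# SC/C: adding the support as a promise (module C-AddN)

`addN ty p N T` (`p.x = N`): add the promise `N`; type B: `b N = N`, `t N = T` on `N`.

* `le_addN`: if `p ≤ s` and `N` is not contained in `s.x` then `addN ty p N T ≤ s` (for `a ∈ s.S` `a ≠ N` because `a ⊆ s.x`).
* `ok_addN`: by `ok_iff`. `K` for `a = N`: for type A all elements of `p.x = N` belong to `Zr N` (`N ⊆ Zr N`: lists `[]`), for type B they
  belong to `b N = N`. For `a ∈ p.S`, `a ≠ N` since `N ∉ p.S`. `Bok` for `a ∈ p.S`: `Bok.congr` with `hle`.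
-/

set_option autoImplicit false

universe u

namespace Pool.MP_d8f801_lc.SC

open Cardinal Set Filter

variable {X : Type u} [Stg X]

open Classical in
/-- add the promise `N` -/
noncomputable def addN (ty : Bool) (p : Pre X) (N : Set X) (T : X → X) : Pre X where
  x := p.x
  F := p.F
  c := p.c
  S := insert N p.S
  b := fun a => if a = N then (if ty = true then N else ∅) else p.b a
  t := fun a y => if a = N then (if ty = true ∧ y ∈ N then T y else ⊥) else p.t a y

private theorem addN_b {ty : Bool} {p : Pre X} {N : Set X} {T : X → X} {a : Set X} (h : a ≠ N) :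
    (addN ty p N T).b a = p.b a := by
  change (if a = N then (if ty = true then N else ∅) else p.b a) = p.b a
  rw [if_neg h]

private theorem addN_t {ty : Bool} {p : Pre X} {N : Set X} {T : X → X} {a : Set X} (h : a ≠ N) (y : X) :
    (addN ty p N T).t a y = p.t a y := if_neg h

private theorem addN_bN {p : Pre X} {N : Set X} {T : X → X} :
    (addN true p N T).b N = N := by
  change (if N = N then (if true = true then N else ∅) else p.b N) = N
  rw [if_pos rfl, if_pos rfl]

theorem le_addN {ty : Bool} {p : Pre X} {N : Set X} {T : X → X} {s : Pre X} (hs : Fit ty s) (h : Le p s)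
    (hN : ¬ N ⊆ s.x) : Le (addN ty p N T) s := by
  have hne : ∀ a ∈ s.S, a ≠ N := by
    rintro a ha rfl
    exact hN (hs.Sx a ha)
  refine ⟨h.x, h.F, h.c, fun a ha => ?_, fun a ha => ?_, fun a ha y hy => ?_⟩
  · rw [← h.S a ha]
    change a ∈ insert N p.S ↔ a ∈ p.S
    constructor
    · rintro (rfl | h1)
      · exact absurd ha hN
      · exact h1
    · exact fun h1 => Or.inr h1
  · rw [addN_b (hne a ha)]
    exact h.b a ha
  · rw [addN_t (hne a ha)]
    exact h.t a ha y hy

theorem ok_addN {ty : Bool} {p : Pre X} (hp : Ok ty p) {N : Set X} {T : X → X} (hx : p.x = N) (hN : N ∉ p.S)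
    (hne : N.Nonempty) (ht : Tr1 N)
    (hle : ty = true → ∀ a ∈ p.S, ∀ y ∈ p.b a, ∀ τ, p.t a y = cd τ → OkH true (dl a) τ → Le p τ → ¬ N ⊆ τ.x)
    (hB : ty = true → Bok (addN ty p N T) N) : Ok ty (addN ty p N T) := by
  have hbas := hp.bas
  have hNe : ∀ a ∈ p.S, a ≠ N := by
    rintro a ha rfl
    exact hN ha
  rw [ok_iff]
  refine ⟨⟨hbas.xc, hbas.Fv, hbas.F0, hbas.cv, hbas.Sc.insert N, ?_, ?_, ?_, ?_, ?_, ?_⟩, ?_⟩
  · rintro a (rfl | ha)
    · exact hne
    · exact hbas.Sn a ha
  · rintro a (rfl | ha)
    · exact hx.symm.subset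
    · exact hbas.Sx a ha
  · rintro a (rfl | ha)
    · exact ht
    · exact hbas.St a ha
  · rintro a (rfl | ha) ξ hξ hr
    · exfalso
      apply hr
      have hξ' : ξ ∈ a := hx ▸ hξ
      cases ty with
      | false => exact ⟨ξ, hξ', [], by simp, rfl⟩
      | true =>
        change ξ ∈ (addN true p a T).b a
        rw [addN_bN]
        exact hξ'
    · refine hbas.K a ha ξ hξ fun h1 => hr ?_
      cases ty with
      | false => exact h1
      | true =>
        change ξ ∈ (addN true p N T).b a
        rw [addN_b (hNe a ha)]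
        exact h1
  · intro a ha
    by_cases haN : a = N
    · rcases ha with ha | ha
      · subst ha
        subst haN
        change (if a = a then (if false = true then a else ∅) else p.b a) = ∅
        rw [if_pos rfl, if_neg (by simp)]
      · exact absurd (Or.inl haN) ha
    · rw [addN_b haN]
      refine hbas.b0 a (ha.imp id fun h1 h2 => h1 (Or.inr h2))
  · intro a y hy
    by_cases haN : a = N
    · refine (if_pos haN).trans (if_neg ?_)
      rintro ⟨h1, h2⟩
      subst h1
      subst haN
      rw [addN_bN] at hy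
      exact hy h2
    · rw [addN_t haN]
      rw [addN_b haN] at hy
      exact hbas.t0 a y hy
  · rintro rfl a (rfl | ha)
    · exact hB rfl
    · have hbok := hp.bok ha
      refine hbok.congr (addN_b (hNe a ha)) hbok.bx (fun _ _ _ _ => rfl) (fun y _ => addN_t (hNe a ha) y)
        fun y hy τ h1 h2 h3 => ?_
      exact le_addN (okH_iff_ok.1 h2).1.1 h3 (hle rfl a ha y hy τ h1 h2 h3)

end Pool.MP_d8f801_lc.SC
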