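import Pool.Agent.Lib.MP_d8f801_lc.SC.C.Ok

/-!
# SC/C: conditions, split into a basic part and a part for every promise (proved)
-/

set_option autoImplicit false

universe u

namespace Pool.MP_d8f801_lc.SC

open Cardinal Set Filter

variable {X : Type u} [Stg X]

/-- the basic requirements -/
structure Bas (ty : Bool) (p : Pre X) : Prop where
  xc : p.x.Countable
  Fv : ∀ α ξ, p.F α ξ < w1
  F0 : ∀ α ξ, p.F α ξ ≠ ⊥ → α ∈ p.x ∧ ξ ∈ p.x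
  cv : ∀ ν i, p.c ν i ≠ ⊥ → ν ∈ p.x ∧ i ∈ p.x ∧ ν < kk ∧ i < w1 ∧ p.c ν i < ν
  Sc : p.S.Countable
  Sn : ∀ a ∈ p.S, a.Nonempty
  Sx : ∀ a ∈ p.S, a ⊆ p.x
  St : ∀ a ∈ p.S, Tr1 a
  K : ∀ a ∈ p.S, ∀ ξ ∈ p.x, ξ ∉ p.reg ty a → ∃ α ∈ a, dl a ≤ p.F α ξ
  b0 : ∀ a, (ty = false ∨ a ∉ p.S) → p.b a = ∅
  t0 : ∀ a y, y ∉ p.b a → p.t a y = ⊥

/-- the requirements for a promise `a` (type B) -/
structure Bok (p : Pre X) (a : Set X) : Prop where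
  b1 : a ⊆ p.b a
  bx : p.b a ⊆ p.x
  b2 : p.b a = hul a (p.b a ∩ Iio kk)
  b2' : ∀ ξ ∈ p.b a, ξ < kk → ξ < lam a
  b3 : ∀ i ∈ p.b a, i < w1 → i < dl a
  b4 : ∀ γ ∈ p.b a, γ < kk → γ ≠ ⊥ → ∀ β, (β ∈ p.b a ∧ β < γ) ↔ ∃ i, i < dl a ∧ p.c γ i = β
  b5 : ∀ y ∈ p.b a, Bdec (OkH true (dl a)) p a y

theorem ok_iff {ty : Bool} {p : Pre X} : Ok ty p ↔ Bas ty p ∧ (ty = true → ∀ a ∈ p.S, Bok p a) := by
  constructor
  · rintro ⟨h, h5⟩
    refine ⟨⟨h.xc, h.Fv, h.F0, h.cv, h.Sc, h.Sn, h.Sx, h.St, h.K, h.b0, h.t0⟩, fun ht a ha => ?_⟩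
    subst ht
    exact ⟨(h.B1 rfl a ha).1, (h.B1 rfl a ha).2, h.B2 rfl a ha, h.B2' rfl a ha, h.B3 rfl a ha, h.B4 rfl a ha,
      h5 rfl a ha⟩
  · rintro ⟨h, h5⟩
    refine ⟨⟨h.xc, h.Fv, h.F0, h.cv, h.Sc, h.Sn, h.Sx, h.St, h.K, h.b0, h.t0,
      fun ht a ha => ⟨(h5 ht a ha).b1, (h5 ht a ha).bx⟩, fun ht a ha => (h5 ht a ha).b2,
      fun ht a ha => (h5 ht a ha).b2', fun ht a ha => (h5 ht a ha).b3, fun ht a ha => (h5 ht a ha).b4⟩,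
      fun ht a ha => ?_⟩
    subst ht
    exact (h5 rfl a ha).b5

theorem Ok.bas {ty : Bool} {p : Pre X} (h : Ok ty p) : Bas ty p := (ok_iff.1 h).1

theorem Ok.bok {p : Pre X} (h : Ok true p) {a : Set X} (ha : a ∈ p.S) : Bok p a := (ok_iff.1 h).2 rfl a ha

theorem dl_sub {a : Set X} {i : X} (hi : i < dl a) : i ∈ a := by
  by_contra h
  have hne : {i : X | i ∉ a}.Nonempty := ⟨i, h⟩
  have h1 : dl a = Stg.wfl.min _ hne := by unfold dl; rw [dif_pos hne]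
  exact Stg.wfl.not_lt_min {i : X | i ∉ a} h (h1 ▸ hi)

/-- (B5) for `q`, from (B5) for `p` if `b` and `t` do not change -/
theorem Bdec.congr {O : Pre X → Prop} {p q : Pre X} {a : Set X} {y : X} (h : Bdec O p a y) (hb : q.b a = p.b a)
    (ht : q.t a y = p.t a y) (hle : ∀ τ, p.t a y = cd τ → O τ → Le p τ → Le q τ) : Bdec O q a y := by
  obtain ⟨τ, h1, h2, h3, h4, h5, h6⟩ := h
  refine ⟨τ, ht.trans h1, hb ▸ h2, h3, hb ▸ h4, hle τ h1 h3 h5, ?_⟩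
  rw [hb]
  exact h6

/-- the requirements for `a` are transferred to `q` if `b` and `t` do not change -/
theorem Bok.congr {p q : Pre X} {a : Set X} (h : Bok p a) (hb : q.b a = p.b a)
    (hx : p.b a ⊆ q.x) (hc : ∀ γ ∈ p.b a, ∀ i ∈ a, q.c γ i = p.c γ i)
    (ht : ∀ y ∈ p.b a, q.t a y = p.t a y)
    (hle : ∀ y ∈ p.b a, ∀ τ, p.t a y = cd τ → OkH true (dl a) τ → Le p τ → Le q τ) : Bok q a := by
  refine ⟨hb ▸ h.b1, hb ▸ hx, ?_, hb ▸ h.b2', hb ▸ h.b3, fun γ hγ hk h0 β => ?_, fun y hy => ?_⟩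
  · rw [hb]; exact h.b2
  · rw [hb] at hγ ⊢
    rw [h.b4 γ hγ hk h0 β]
    refine exists_congr fun i => and_congr_right fun hi => ?_
    rw [hc γ hγ i (dl_sub hi)]
  · rw [hb] at hy
    exact (h.b5 y hy).congr hb (ht y hy) (hle y hy)

/-- the requirements for `a` are transferred to `q ≤ p` if `b` does not change -/
theorem Bok.mono {p q : Pre X} {a : Set X} (h : Bok p a) (ha : a ∈ p.S) (hq : Le q p)
    (hb : q.b a = p.b a) : Bok q a := by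
  refine h.congr hb (h.bx.trans hq.x) (fun γ hγ i hi => hq.c γ (h.bx hγ) i (h.bx (h.b1 hi)))
    (hq.t a ha) fun y hy τ h1 h2 h3 => ?_
  exact Le.trans' (okH_iff_ok.1 h2).1.1 hq h3

theorem cd_inj {p q : Pre X} (hp : FitE X p) (hq : FitE X q) (h : cd p = cd q) : p = q := by
  rw [← dc_cd hp, ← dc_cd hq, h]

theorem bot_lt_w1 : (⊥ : X) < w1 := by
  rcases eq_or_lt_of_le (bot_le : (⊥ : X) ≤ w1) with h | h
  · exfalso
    apply Stg.w1_unc (X := X)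
    rw [← h]
    rw [show Iio (⊥ : X) = ∅ from Iio_bot]
    exact countable_empty
  · exact h

theorem bot_lt_kk : (⊥ : X) < kk := bot_lt_w1.trans Stg.w1_lt

end Pool.MP_d8f801_lc.SC
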