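import Pool.Agent.Lib.MP_d8f801_lc.SC.C.Lim

/-!
# SC/C: the `κ`-chain condition (module C-CC)

* `cc_pre`: if `A` is not small, let `g : Iio kk → A` be injective and `f ν = g ν` for `ν < kk`, `f ν = g ⊥` otherwise. Let `L` be the limit of
  `f` (`exists_lim`), and `ν₀ < kk` with `Le (f ν₀) L` (`IsLim.le`, `uf_kk`). By `lim_fork` (for `s = f ν₀`), `Stg.U_tail ν₀` there is `ν` with
  `ν₀ < ν < kk` and `Fork L (f ν) (f ν₀)`; `mx (f ν) (f ν₀) η` with `η` from `bd_hgt` is a common extension of `f ν ≠ f ν₀`.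
* `exists_predense`: Zorn's lemma (`zorn_subset`) for the antichains contained in `{q | Ok ty q ∧ D q}`; a maximal one is predense: for `Ok ty p` let
  `q ≤ p` with `D q`; `q` is compatible with some element of `A` (otherwise `insert q A` is a larger antichain).
-/

set_option autoImplicit false

universe u

namespace Pool.MP_d8f801_lc.SC

open Cardinal Set Filter

variable {X : Type u} [Stg X]

theorem cc_pre {ty : Bool} (A : Set (Pre X)) (hA : ∀ p ∈ A, Ok ty p)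
    (h : ∀ p ∈ A, ∀ q ∈ A, p ≠ q → ¬ ∃ r, Ok ty r ∧ Le r p ∧ Le r q) : Sm X A := by
  classical
  by_contra hsm
  unfold Sm at hsm
  rw [not_lt, Cardinal.le_def] at hsm
  obtain ⟨g⟩ := hsm
  set f : X → Pre X := fun ν => if h : ν < kk then (g ⟨ν, h⟩ : Pre X) else (g ⟨⊥, bot_lt_kk⟩ : Pre X)
    with hfdef
  have hfA : ∀ ν, f ν ∈ A := by
    intro ν
    simp only [hfdef]
    split_ifs
    · exact (g _).2
    · exact (g _).2
  have hfk : ∀ ν (hν : ν < kk), f ν = (g ⟨ν, hν⟩ : Pre X) := by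
    intro ν hν
    simp only [hfdef]
    rw [dif_pos hν]
  have hf : ∀ᶠ ν in Uf X, Ok ty (f ν) := Eventually.of_forall fun ν => hA _ (hfA ν)
  obtain ⟨L, hL⟩ := exists_lim hf
  obtain ⟨ν0, h0le, h0k⟩ := (hL.le.and (uf_kk (X := X))).exists
  have h0ok : Ok ty (f ν0) := hA _ (hfA ν0)
  obtain ⟨ν, ⟨hfk', hlt⟩, hνk⟩ :=
    (((lim_fork hf hL h0ok h0le).and (Stg.U_tail ν0 h0k)).and (uf_kk (X := X))).exists
  have hνok : Ok ty (f ν) := hA _ (hfA ν)
  obtain ⟨η, hη, -, hηa⟩ := bd_hgt (A := (f ν).S ∪ (f ν0).S) (hνok.fit.Sc.union h0ok.fit.Sc)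
    (by
      rintro a (ha | ha)
      · exact hνok.Sct a ha
      · exact h0ok.Sct a ha) (bot_lt_w1 (X := X))
  have hok : Ok ty (mx (f ν) (f ν0) η) := ok_mx hL.ok hνok h0ok hfk' hη
    (fun a ha => (hηa a (Or.inl ha)).le) (fun a ha => (hηa a (Or.inr ha)).le)
  have hne : f ν ≠ f ν0 := by
    intro he
    rw [hfk ν hνk, hfk ν0 h0k] at he
    have h1 := g.injective (Subtype.ext he)
    have h2 : ν = ν0 := congrArg Subtype.val h1
    exact absurd h2 (ne_of_gt hlt)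
  exact h _ (hfA ν) _ (hfA ν0) hne ⟨_, hok, le_mx_left hL.ok hνok h0ok hfk',
    le_mx_right hL.ok hνok h0ok hfk'⟩

/-- every dense set contains a small antichain which is predense -/
theorem exists_predense {ty : Bool} (D : Pre X → Prop) (hD : ∀ p, Ok ty p → ∃ q, Ok ty q ∧ Le q p ∧ D q) :
    ∃ A : Set (Pre X), Sm X A ∧ (∀ q ∈ A, Ok ty q ∧ D q) ∧
      (∀ p ∈ A, ∀ q ∈ A, p ≠ q → ¬ ∃ r, Ok ty r ∧ Le r p ∧ Le r q) ∧
      ∀ p, Ok ty p → ∃ q ∈ A, ∃ r, Ok ty r ∧ Le r p ∧ Le r q := by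
  obtain ⟨A, hA⟩ := zorn_subset {B : Set (Pre X) | (∀ q ∈ B, Ok ty q ∧ D q) ∧
      ∀ p ∈ B, ∀ q ∈ B, p ≠ q → ¬ ∃ r, Ok ty r ∧ Le r p ∧ Le r q} (by
    intro c hc hchain
    refine ⟨⋃₀ c, ⟨?_, ?_⟩, fun s hs => subset_sUnion_of_mem hs⟩
    · rintro q ⟨s, hs, hq⟩
      exact (hc hs).1 q hq
    · rintro p ⟨s, hs, hp⟩ q ⟨t, ht, hq⟩ hpq
      rcases hchain.total hs ht with h | h
      · exact (hc ht).2 p (h hp) q hq hpq
      · exact (hc hs).2 p hp q (h hq) hpq)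
  obtain ⟨hA1, hA2⟩ := hA.prop
  refine ⟨A, cc_pre A (fun p hp => (hA1 p hp).1) hA2, hA1, hA2, ?_⟩
  intro p hp
  by_contra hcon
  push Not at hcon
  obtain ⟨q, hq, hqp, hDq⟩ := hD p hp
  have hqA : q ∉ A := fun hqA => hcon q hqA q hq hqp (Le.refl' hq.fit)
  have hins : insert q A ∈ {B : Set (Pre X) | (∀ q ∈ B, Ok ty q ∧ D q) ∧
      ∀ p ∈ B, ∀ q ∈ B, p ≠ q → ¬ ∃ r, Ok ty r ∧ Le r p ∧ Le r q} := by
    refine ⟨?_, ?_⟩
    · rintro s (rfl | hs)
      · exact ⟨hq, hDq⟩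
      · exact hA1 s hs
    · rintro s (rfl | hs) t (rfl | ht) hst
      · exact absurd rfl hst
      · rintro ⟨r, hr, hrs, hrt⟩
        exact hcon t ht r hr (Le.trans' hp.fit hrs hqp) hrt
      · rintro ⟨r, hr, hrs, hrt⟩
        exact hcon s hs r hr (Le.trans' hp.fit hrt hqp) hrs
      · exact hA2 s hs t ht hst
  exact hqA (hA.le_of_ge hins (subset_insert q A) (mem_insert q A))

end Pool.MP_d8f801_lc.SC
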