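import Pool.Agent.Lib.MP_d8f801_lc.SC.C.Defs
import Pool.Agent.Lib.MP_d8f801_lc.SC.K.Small

/-!
# SC/C: coding of the preconditions and of small sets of pairs (module C-Code)

* `exists_cd`. `#X = 2 ^ κ`, so `#(ℕ → X) = #X` and for every type `Y` with `#Y ≤ #X` also `#{A : Set Y // A.Countable} ≤ #X` (every
  nonempty countable set is the range of a function on `ℕ`). A `p` with `Fit ty p` is determined by the countable sets `p.x`,
  `{(α, ξ, p.F α ξ) | α ξ ∈ p.x}`, the same for `c`, `{(a, p.b a) | a ∈ p.S}` (a countable set of pairs of countable sets) and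
  `{(a, y, p.t a y) | a ∈ p.S, y ∈ p.b a}` (by `F0`, `cv`, `b0`, `t0`; `p.b a ⊆ p.x` is countable by `B1`, `b0`), so
  `#{p // Fit true p ∨ Fit false p} ≤ #X`; take an injection into `X` and its left inverse.
* `exists_en`. `Y := {p // Fit true p ∨ Fit false p} × X` has `#Y ≤ #X`; every small nonempty subset of `Y` is the range of a function on
  `Iio kk`, and `#(Iio kk → Y) ≤ (2 ^ κ) ^ κ = 2 ^ κ = #X`; so there is a map from `X` onto the set of all small subsets of `Y`
  (as subsets of `Pre X × X`).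
-/

set_option autoImplicit false

universe u

namespace Pool.MP_d8f801_lc.SC

open Cardinal Set Filter

variable (X : Type u) [Stg X]

/-- both types of preconditions -/
def FitE (p : Pre X) : Prop := ∃ ty, Fit ty p

private theorem code_fun {ν Y : Type u} (hν : #ν ≤ #(Set.Iio (kk : X))) (hY : #Y ≤ #X) :
    #(ν → Y) ≤ #X := by
  have hinf : ℵ₀ ≤ #(Set.Iio (kk : X)) := (Stg.reg (X := X)).aleph0_le
  have h1 : #(ν → Y) = #Y ^ #ν := by simp
  rw [h1]
  have h2 : #Y ^ #ν ≤ #X ^ #(Set.Iio (kk : X)) := by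
    refine (Cardinal.power_le_power_right hY).trans ?_
    refine Cardinal.power_le_power_left ?_ hν
    rw [Stg.card_X]
    exact (Cardinal.power_pos _ two_pos).ne'
  refine h2.trans (le_of_eq ?_)
  rw [Stg.card_X, ← Cardinal.power_mul, Cardinal.mul_eq_self hinf]

private theorem code_inf : ℵ₀ ≤ #X := by
  rw [Stg.card_X]
  exact ((Stg.reg (X := X)).aleph0_le).trans (Cardinal.cantor _).le

private theorem code_option {Y : Type u} (hY : #Y ≤ #X) : #(Option Y) ≤ #X := by
  rw [Cardinal.mk_option]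
  exact Cardinal.add_le_of_le (code_inf X) hY ((Cardinal.one_le_aleph0).trans (code_inf X))

private theorem code_prod {Y Z : Type u} (hY : #Y ≤ #X) (hZ : #Z ≤ #X) : #(Y × Z) ≤ #X := by
  rw [Cardinal.mk_prod, Cardinal.lift_id, Cardinal.lift_id]
  exact (mul_le_mul' hY hZ).trans (Cardinal.mul_eq_self (code_inf X)).le

private theorem code_ctbl {Y : Type u} (hY : #Y ≤ #X) : #{A : Set Y // A.Countable} ≤ #X := by
  have hinf : ℵ₀ ≤ #(Set.Iio (kk : X)) := (Stg.reg (X := X)).aleph0_le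
  have h1 : #{A : Set Y // A.Countable} ≤ #(ULift.{u} ℕ → Option Y) := by
    refine Cardinal.mk_le_of_surjective (f := fun g : ULift.{u} ℕ → Option Y =>
      (⟨{y | ∃ n, g n = some y}, ?_⟩ : {A : Set Y // A.Countable})) ?_
    · refine (countable_range fun n : {n : ULift.{u} ℕ // (g n).isSome} =>
        (g n.1).get n.2).mono ?_
      rintro y ⟨n, hn⟩
      refine ⟨⟨n, by rw [hn]; rfl⟩, ?_⟩
      simp only [hn, Option.get_some]
    · rintro ⟨A, hA⟩
      rcases A.eq_empty_or_nonempty with rfl | hne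
      · refine ⟨fun _ => none, ?_⟩
        apply Subtype.ext
        ext y
        simp
      · obtain ⟨f, hf⟩ := hA.exists_eq_range hne
        refine ⟨fun n => some (f n.down), ?_⟩
        apply Subtype.ext
        ext y
        simp only [mem_ofPred_eq, Option.some.injEq]
        rw [hf]
        constructor
        · rintro ⟨n, rfl⟩; exact ⟨n.down, rfl⟩
        · rintro ⟨n, rfl⟩; exact ⟨⟨n⟩, rfl⟩
  refine h1.trans (code_fun X ?_ (code_option X hY))
  simpa using hinf

/-- the data of a precondition -/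
private def codeD (p : Pre X) (h : FitE X p) :
    {A : Set X // A.Countable} × {A : Set (X × X × X) // A.Countable} ×
      {A : Set (X × X × X) // A.Countable} ×
      {A : Set ({A : Set X // A.Countable} × {A : Set X // A.Countable}) // A.Countable} ×
      {A : Set ({A : Set X // A.Countable} × X × X) // A.Countable} := by
  have hxc : p.x.Countable := by obtain ⟨ty, h⟩ := h; exact h.xc
  have hbx : ∀ a y, y ∈ p.b a → a ∈ p.S ∧ y ∈ p.x := by
    obtain ⟨ty, h⟩ := h
    intro a y hy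
    by_cases hty : ty = true
    · by_cases ha : a ∈ p.S
      · exact ⟨ha, (h.B1 hty a ha).2 hy⟩
      · rw [h.b0 a (Or.inr ha)] at hy
        exact absurd hy (notMem_empty _)
    · rw [h.b0 a (Or.inl (by simpa using hty))] at hy
      exact absurd hy (notMem_empty _)
  refine ⟨⟨p.x, hxc⟩, ⟨{z | p.F z.1 z.2.1 = z.2.2 ∧ z.2.2 ≠ ⊥}, ?_⟩,
    ⟨{z | p.c z.1 z.2.1 = z.2.2 ∧ z.2.2 ≠ ⊥}, ?_⟩,
    ⟨{z | z.1.1 ∈ p.S ∧ p.b z.1.1 = z.2.1}, ?_⟩,
    ⟨{z | p.t z.1.1 z.2.1 = z.2.2 ∧ z.2.2 ≠ ⊥}, ?_⟩⟩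
  · refine MapsTo.countable_of_injOn (t := p.x ×ˢ p.x) (f := fun z => (z.1, z.2.1)) ?_ ?_
      (hxc.prod hxc)
    · obtain ⟨ty, h⟩ := h
      rintro z ⟨h1, h2⟩
      have := h.F0 z.1 z.2.1 (h1 ▸ h2)
      exact ⟨this.1, this.2⟩
    · rintro ⟨α, ξ, v⟩ ⟨h1, h2⟩ ⟨α', ξ', v'⟩ ⟨h3, h4⟩ he
      simp only [Prod.mk.injEq] at he
      obtain ⟨rfl, rfl⟩ := he
      simp only at h1 h3
      rw [← h1, ← h3]
  · refine MapsTo.countable_of_injOn (t := p.x ×ˢ p.x) (f := fun z => (z.1, z.2.1)) ?_ ?_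
      (hxc.prod hxc)
    · obtain ⟨ty, h⟩ := h
      rintro z ⟨h1, h2⟩
      have := h.cv z.1 z.2.1 (h1 ▸ h2)
      exact ⟨this.1, this.2.1⟩
    · rintro ⟨α, ξ, v⟩ ⟨h1, h2⟩ ⟨α', ξ', v'⟩ ⟨h3, h4⟩ he
      simp only [Prod.mk.injEq] at he
      obtain ⟨rfl, rfl⟩ := he
      simp only at h1 h3
      rw [← h1, ← h3]
  · refine MapsTo.countable_of_injOn (t := p.S) (f := fun z => z.1.1) ?_ ?_ ?_
    · rintro z ⟨h1, h2⟩; exact h1
    · rintro ⟨a, b⟩ ⟨h1, h2⟩ ⟨a', b'⟩ ⟨h3, h4⟩ he
      have he' : a = a' := Subtype.ext he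
      subst he'
      simp only at h2 h4
      rw [Prod.mk.injEq]
      exact ⟨rfl, Subtype.ext (h2.symm.trans h4)⟩
    · obtain ⟨ty, h⟩ := h; exact h.Sc
  · refine MapsTo.countable_of_injOn (t := p.S ×ˢ p.x) (f := fun z => (z.1.1, z.2.1)) ?_ ?_ ?_
    · rintro z ⟨h1, h2⟩
      have h3 : z.2.1 ∈ p.b z.1.1 := by
        by_contra hcon
        obtain ⟨ty, h⟩ := h
        exact h2 (h1 ▸ h.t0 _ _ hcon)
      exact hbx _ _ h3
    · rintro ⟨a, y, v⟩ ⟨h1, h2⟩ ⟨a', y', v'⟩ ⟨h3, h4⟩ he
      simp only [Prod.mk.injEq] at he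
      have he' : a = a' := Subtype.ext he.1
      subst he'
      obtain ⟨_, rfl⟩ := he
      simp only at h1 h3
      rw [← h1, ← h3]
    · obtain ⟨ty, h⟩ := h; exact h.Sc.prod h.xc

private theorem code_eq {A B : X → X → X}
    (h : ({z : X × X × X | A z.1 z.2.1 = z.2.2 ∧ z.2.2 ≠ ⊥} : Set _) =
      {z | B z.1 z.2.1 = z.2.2 ∧ z.2.2 ≠ ⊥}) : A = B := by
  funext α ξ
  by_cases h1 : A α ξ = ⊥
  · by_cases h2 : B α ξ = ⊥
    · rw [h1, h2]
    · have h3 : (α, ξ, B α ξ) ∈ ({z : X × X × X | B z.1 z.2.1 = z.2.2 ∧ z.2.2 ≠ ⊥} : Set _) :=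
        ⟨rfl, h2⟩
      rw [← h] at h3
      exact h3.1
  · have h3 : (α, ξ, A α ξ) ∈ ({z : X × X × X | A z.1 z.2.1 = z.2.2 ∧ z.2.2 ≠ ⊥} : Set _) :=
      ⟨rfl, h1⟩
    rw [h] at h3
    exact h3.1.symm

private theorem code_S {p q : Pre X} (hp : FitE X p)
    (h : ({z : {A : Set X // A.Countable} × {A : Set X // A.Countable} |
      z.1.1 ∈ p.S ∧ p.b z.1.1 = z.2.1} : Set _) = {z | z.1.1 ∈ q.S ∧ q.b z.1.1 = z.2.1})
    {a : Set X} (ha : a ∈ p.S) : a ∈ q.S ∧ q.b a = p.b a := by
  obtain ⟨ty, hp⟩ := hp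
  have hac : a.Countable := hp.xc.mono (hp.Sx a ha)
  have hbc : (p.b a).Countable := by
    by_cases hty : ty = true
    · exact hp.xc.mono (hp.B1 hty a ha).2
    · rw [hp.b0 a (Or.inl (by simpa using hty))]; exact countable_empty
  have h1 : ((⟨a, hac⟩, ⟨p.b a, hbc⟩) : {A : Set X // A.Countable} × {A : Set X // A.Countable}) ∈
      ({z : {A : Set X // A.Countable} × {A : Set X // A.Countable} |
      z.1.1 ∈ p.S ∧ p.b z.1.1 = z.2.1} : Set _) := ⟨ha, rfl⟩
  rw [h] at h1
  exact h1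

private theorem codeD_inj {p q : Pre X} (hp : FitE X p) (hq : FitE X q)
    (h : codeD X p hp = codeD X q hq) : p = q := by
  have h1 := congrArg (fun z => z.1.1) h
  have h2 := congrArg (fun z => z.2.1.1) h
  have h3 := congrArg (fun z => z.2.2.1.1) h
  have h4 := congrArg (fun z => z.2.2.2.1.1) h
  have h5 := congrArg (fun z => z.2.2.2.2.1) h
  simp only [codeD] at h1 h2 h3 h4 h5
  have hF := code_eq X h2
  have hc := code_eq X h3
  have hS : p.S = q.S := by
    ext a
    exact ⟨fun ha => (code_S X hp h4 ha).1, fun ha => (code_S X hq h4.symm ha).1⟩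
  have hb0 : ∀ {r : Pre X}, FitE X r → ∀ a, a ∉ r.S → r.b a = ∅ := by
    rintro r ⟨ty, hr⟩ a ha
    exact hr.b0 a (Or.inr ha)
  have hb : p.b = q.b := by
    funext a
    by_cases ha : a ∈ p.S
    · exact (code_S X hp h4 ha).2.symm
    · rw [hb0 hp a ha, hb0 hq a (hS ▸ ha)]
  have ht0 : ∀ {r : Pre X}, FitE X r → ∀ a, ¬ a.Countable → ∀ y, r.t a y = ⊥ := by
    rintro r ⟨ty, hr⟩ a ha y
    refine hr.t0 a y fun hy => ha ?_
    by_cases haS : a ∈ r.S
    · exact hr.xc.mono (hr.Sx a haS)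
    · rw [hr.b0 a (Or.inr haS)] at hy
      exact absurd hy (notMem_empty _)
  have ht : p.t = q.t := by
    funext a y
    by_cases hac : a.Countable
    · by_cases h6 : p.t a y = ⊥
      · by_cases h7 : q.t a y = ⊥
        · rw [h6, h7]
        · have h8 : ((⟨a, hac⟩, y, q.t a y) : {A : Set X // A.Countable} × X × X) ∈
              ({z : {A : Set X // A.Countable} × X × X |
                q.t z.1.1 z.2.1 = z.2.2 ∧ z.2.2 ≠ ⊥} : Set _) := ⟨rfl, h7⟩
          rw [← h5] at h8
          exact h8.1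
      · have h8 : ((⟨a, hac⟩, y, p.t a y) : {A : Set X // A.Countable} × X × X) ∈
            ({z : {A : Set X // A.Countable} × X × X |
              p.t z.1.1 z.2.1 = z.2.2 ∧ z.2.2 ≠ ⊥} : Set _) := ⟨rfl, h6⟩
        rw [h5] at h8
        exact h8.1.symm
    · rw [ht0 hp a hac y, ht0 hq a hac y]
  exact Pre.ext h1 hF hc hS hb ht

private theorem code_card : #{p : Pre X // FitE X p} ≤ #X := by
  have h1 := code_ctbl X (le_refl #X)
  have h2 := code_prod X (le_refl #X) (le_refl #X)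
  have h3 := code_ctbl X (code_prod X (le_refl #X) h2)
  have h4 := code_ctbl X (code_prod X h1 h1)
  have h5 := code_ctbl X (code_prod X h1 h2)
  refine le_trans ?_ (code_prod X h1 (code_prod X h3 (code_prod X h3 (code_prod X h4 h5))))
  exact Cardinal.mk_le_of_injective (f := fun p : {p : Pre X // FitE X p} => codeD X p.1 p.2)
    fun p q h => Subtype.ext (codeD_inj X p.2 q.2 h)

theorem exists_cd : ∃ (cd : Pre X → X) (dc : X → Pre X), ∀ p, FitE X p → dc (cd p) = p := by
  classical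
  obtain ⟨j⟩ := (Cardinal.le_def _ _).1 (code_card X)
  refine ⟨fun p => if h : FitE X p then j ⟨p, h⟩ else ⊥,
    fun ξ => if h : ∃ p, j p = ξ then h.choose.1 else
      ⟨∅, fun _ _ => ⊥, fun _ _ => ⊥, ∅, fun _ => ∅, fun _ _ => ⊥⟩, fun p hp => ?_⟩
  simp only [dif_pos hp]
  have h : ∃ q, j q = j ⟨p, hp⟩ := ⟨_, rfl⟩
  rw [dif_pos h]
  have h2 := j.injective h.choose_spec
  exact congrArg Subtype.val h2

theorem exists_en : ∃ en : X → Set (Pre X × X), (∀ y, Sm X (en y)) ∧ (∀ y, ∀ z ∈ en y, FitE X z.1) ∧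
    ∀ A : Set (Pre X × X), Sm X A → (∀ z ∈ A, FitE X z.1) → ∃ y, en y = A := by
  classical
  have hcard : #(Set.Iio (kk : X) → Option ({p : Pre X // FitE X p} × X)) ≤ #X :=
    code_fun X le_rfl (code_option X (code_prod X (code_card X) le_rfl))
  obtain ⟨j⟩ := (Cardinal.le_def _ _).1 hcard
  let E : (Set.Iio (kk : X) → Option ({p : Pre X // FitE X p} × X)) → Set (Pre X × X) := fun g =>
    {z | ∃ i y, g i = some y ∧ z = (y.1.1, y.2)}
  let en : X → Set (Pre X × X) := fun x =>
    if h : ∃ g, j g = x then (if Sm X (E h.choose) then E h.choose else ∅) else ∅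
  refine ⟨en, fun y => ?_, fun y z hz => ?_, fun A hA hfit => ?_⟩
  · show Sm X (if h : ∃ g, j g = y then (if Sm X (E h.choose) then E h.choose else ∅) else ∅)
    split_ifs with h h'
    · exact h'
    · exact Sm.of_countable countable_empty
    · exact Sm.of_countable countable_empty
  · change z ∈ (if h : ∃ g, j g = y then (if Sm X (E h.choose) then E h.choose else ∅) else ∅) at hz
    split_ifs at hz with h h'
    · obtain ⟨i, w, hw, rfl⟩ := hz
      exact w.1.2
    · exact absurd hz (notMem_empty _)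
    · exact absurd hz (notMem_empty _)
  · obtain ⟨f⟩ := (Cardinal.le_def _ _).1 (le_of_lt hA)
    let g : Set.Iio (kk : X) → Option ({p : Pre X // FitE X p} × X) := fun i =>
      if h : ∃ a : A, f a = i then some (⟨h.choose.1.1, hfit _ h.choose.2⟩, h.choose.1.2) else none
    have hE : E g = A := by
      ext z
      constructor
      · rintro ⟨i, w, hw, rfl⟩
        change (if h : ∃ a : A, f a = i then
          some ((⟨h.choose.1.1, hfit _ h.choose.2⟩, h.choose.1.2) : {p : Pre X // FitE X p} × X)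
          else none) = some w at hw
        split_ifs at hw with h
        rw [Option.some.injEq] at hw
        rw [← hw]
        exact h.choose.2
      · intro hz
        have h : ∃ a : A, f a = f ⟨z, hz⟩ := ⟨_, rfl⟩
        refine ⟨f ⟨z, hz⟩, _, dif_pos h, ?_⟩
        have h2 := f.injective h.choose_spec
        simp only [h2]
    refine ⟨j g, ?_⟩
    have h : ∃ g', j g' = j g := ⟨_, rfl⟩
    have h2 : h.choose = g := j.injective h.choose_spec
    show (if h : ∃ g', j g' = j g then (if Sm X (E h.choose) then E h.choose else ∅) else ∅) = A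
    rw [dif_pos h, h2, hE, if_pos hA]

variable {X}

/-- the code of a precondition -/
noncomputable def cd (p : Pre X) : X := (exists_cd X).choose p

/-- the precondition with a given code -/
noncomputable def dc (ξ : X) : Pre X := (exists_cd X).choose_spec.choose ξ

theorem dc_cd {p : Pre X} (h : FitE X p) : dc (cd p) = p := (exists_cd X).choose_spec.choose_spec p h

/-- the small set of pairs with a given code -/
noncomputable def en (y : X) : Set (Pre X × X) := (exists_en X).choose y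

theorem sm_en (y : X) : Sm X (en y) := (exists_en X).choose_spec.1 y

theorem fit_en {y : X} {z : Pre X × X} (h : z ∈ en y) : FitE X z.1 := (exists_en X).choose_spec.2.1 y z h

theorem en_surj {A : Set (Pre X × X)} (h : Sm X A) (h' : ∀ z ∈ A, FitE X z.1) : ∃ y, en y = A :=
  (exists_en X).choose_spec.2.2 A h h'

end Pool.MP_d8f801_lc.SC
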