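import Pool.Agent.Lib.MP_d8f801_lc.SC.K.Defs

/-!
# SC/C: preconditions, the order, conditions

`ty = false`: type A (`SCC^split` and not `SCC^cof`), `ty = true`: type B (`SCC` and not `SCC^split`).
-/

set_option autoImplicit false

universe u

namespace Pool.MP_d8f801_lc.SC

open Cardinal Set Filter

variable {X : Type u} [Stg X]

/-- preconditions -/
@[ext]
structure Pre (X : Type u) where
  /-- the support -/
  x : Set X
  /-- the function into `ω₁` (`⊥` outside the support) -/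
  F : X → X → X
  /-- the collapsing functions (`⊥` outside the support) -/
  c : X → X → X
  /-- the promises -/
  S : Set (Set X)
  /-- type B: the chain part of a promise -/
  b : Set X → Set X
  /-- type B: the deciding conditions -/
  t : Set X → X → X

/-- the order (`q ≤ p`) -/
structure Le (q p : Pre X) : Prop where
  x : p.x ⊆ q.x
  F : ∀ α ∈ p.x, ∀ ξ ∈ p.x, q.F α ξ = p.F α ξ
  c : ∀ α ∈ p.x, ∀ ξ ∈ p.x, q.c α ξ = p.c α ξ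
  S : ∀ a, a ⊆ p.x → (a ∈ q.S ↔ a ∈ p.S)
  b : ∀ a ∈ p.S, q.b a ∩ p.x = p.b a
  t : ∀ a ∈ p.S, ∀ y ∈ p.b a, q.t a y = p.t a y

/-- the region in which nothing is killed for `a` -/
noncomputable def Pre.reg (ty : Bool) (p : Pre X) (a : Set X) : Set X := if ty then p.b a else Zr a

/-- the combinatorial requirements -/
structure Fit (ty : Bool) (p : Pre X) : Prop where
  xc : p.x.Countable
  Fv : ∀ α ξ, p.F α ξ < w1
  F0 : ∀ α ξ, p.F α ξ ≠ ⊥ → α ∈ p.x ∧ ξ ∈ p.x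
  cv : ∀ ν i, p.c ν i ≠ ⊥ → ν ∈ p.x ∧ i ∈ p.x ∧ ν < kk ∧ i < w1 ∧ p.c ν i < ν
  Sc : p.S.Countable
  Sn : ∀ a ∈ p.S, a.Nonempty
  Sx : ∀ a ∈ p.S, a ⊆ p.x
  St : ∀ a ∈ p.S, Tr1 a
  K : ∀ a ∈ p.S, ∀ ξ ∈ p.x, ξ ∉ p.reg ty a → ∃ α ∈ a, dl a ≤ p.F α ξ
  /-- `b` and `t` are trivial where they are not used -/
  b0 : ∀ a, (ty = false ∨ a ∉ p.S) → p.b a = ∅
  t0 : ∀ a y, y ∉ p.b a → p.t a y = ⊥
  B1 : ty = true → ∀ a ∈ p.S, a ⊆ p.b a ∧ p.b a ⊆ p.x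
  B2 : ty = true → ∀ a ∈ p.S, p.b a = hul a (p.b a ∩ Iio kk)
  B2' : ty = true → ∀ a ∈ p.S, ∀ ξ ∈ p.b a, ξ < kk → ξ < lam a
  B3 : ty = true → ∀ a ∈ p.S, ∀ i ∈ p.b a, i < w1 → i < dl a
  B4 : ty = true → ∀ a ∈ p.S, ∀ γ ∈ p.b a, γ < kk → γ ≠ ⊥ → ∀ β, (β ∈ p.b a ∧ β < γ) ↔ ∃ i, i < dl a ∧ p.c γ i = β

end Pool.MP_d8f801_lc.SC
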