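import Pool.Agent.Lib.MP_d8f801_lc.SC.C.Restrict
import Pool.Agent.Lib.MP_d8f801_lc.SC.C.Bok

/-!
# SC/C: the empty condition, bounds for the heights (module C-Emp)

* `emp`: all components trivial; `le_emp`: `a ⊆ ∅` and `a ∈ p.S` contradict `Fit.Sn`.
* `w1_bdd`: `⋃ x ∈ A, Iic x` is countable (`Stg.w1_min`; `Iic x = insert x (Iio x)`), and `Iio w1` is not.
* `bd_hgt`: apply `w1_bdd` to the image of `A` under `dl` (`dl a < w1` for countable `a`: this is `dl_spec` of `K/Nx.lean`, which is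
  not imported here: `Iio (dl a) ⊆ a` by `dl_sub`, so `w1 ≤ dl a` would imply that `Iio w1` is countable).
-/

set_option autoImplicit false

universe u

namespace Pool.MP_d8f801_lc.SC

open Cardinal Set Filter

variable {X : Type u} [Stg X]

/-- the empty condition -/
noncomputable def emp : Pre X := ⟨∅, fun _ _ => ⊥, fun _ _ => ⊥, ∅, fun _ => ∅, fun _ _ => ⊥⟩

theorem ok_emp (ty : Bool) : Ok ty (emp : Pre X) := by
  have hS : ∀ a : Set X, a ∉ (emp : Pre X).S := fun a ha => ha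
  have hx : ∀ a : X, a ∉ (emp : Pre X).x := fun a ha => ha
  refine ⟨⟨countable_empty, fun _ _ => bot_lt_w1, fun _ _ h => absurd rfl h, fun _ _ h => absurd rfl h,
    countable_empty, fun a ha => (hS a ha).elim, fun a ha => (hS a ha).elim, fun a ha => (hS a ha).elim,
    fun a ha => (hS a ha).elim, fun _ _ => rfl, fun _ _ _ => rfl, fun _ a ha => (hS a ha).elim,
    fun _ a ha => (hS a ha).elim, fun _ a ha => (hS a ha).elim, fun _ a ha => (hS a ha).elim,
    fun _ a ha => (hS a ha).elim⟩, fun _ a ha => (hS a ha).elim⟩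

theorem le_emp {ty : Bool} {p : Pre X} (h : Ok ty p) : Le p emp := by
  refine ⟨empty_subset _, fun α hα => (hα : α ∈ (∅ : Set X)).elim, fun α hα => (hα : α ∈ (∅ : Set X)).elim,
    fun a ha => ⟨fun h' => ?_, fun h' => (h' : a ∈ (∅ : Set (Set X))).elim⟩,
    fun a ha => (ha : a ∈ (∅ : Set (Set X))).elim, fun a ha => (ha : a ∈ (∅ : Set (Set X))).elim⟩
  obtain ⟨y, hy⟩ := h.fit.Sn a h'
  exact (ha hy : y ∈ (∅ : Set X)).elim

theorem rs_emp (R : Set X) : rs (emp : Pre X) R = emp := by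
  unfold rs emp
  ext1
  · simp
  · simp
  · simp
  · simp
  · simp
  · simp

theorem dl_lt {a : Set X} (ha : a.Countable) : dl a < w1 := by
  by_contra hcon
  exact Stg.w1_unc (X := X) (ha.mono fun i hi => dl_sub (lt_of_lt_of_le hi (not_lt.1 hcon)))

theorem w1_bdd {A : Set X} (hA : A.Countable) (h : ∀ x ∈ A, x < w1) : ∃ η : X, η < w1 ∧ ∀ x ∈ A, x < η := by
  by_contra hcon
  have h1 : (⋃ x ∈ A, Iic x).Countable := by
    refine hA.biUnion fun x hx => ?_
    have h2 : Iic x = insert x (Iio x) := by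
      ext z
      rw [mem_Iic, mem_insert_iff, mem_Iio, le_iff_eq_or_lt]
    rw [h2]
    exact (Stg.w1_min x (h x hx)).insert x
  refine Stg.w1_unc (X := X) (h1.mono fun i hi => ?_)
  by_contra hi2
  refine hcon ⟨i, hi, fun x hx => ?_⟩
  by_contra hx2
  exact hi2 (mem_biUnion hx (not_lt.1 hx2))

theorem bd_hgt {A : Set (Set X)} (hA : A.Countable) (h : ∀ a ∈ A, a.Countable) {δ : X} (hδ : δ < w1) :
    ∃ η : X, η < w1 ∧ δ < η ∧ ∀ a ∈ A, dl a < η := by
  obtain ⟨η, h1, h2⟩ := w1_bdd (A := insert δ (dl '' A)) ((hA.image dl).insert δ) (by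
    rintro x (rfl | ⟨a, ha, rfl⟩)
    · exact hδ
    · exact dl_lt (h a ha))
  exact ⟨η, h1, h2 δ (mem_insert _ _), fun a ha => h2 _ (mem_insert_of_mem _ (mem_image_of_mem dl ha))⟩

/-- the promises of conditions are countable -/
theorem Ok.Sct {ty : Bool} {p : Pre X} (h : Ok ty p) : ∀ a ∈ p.S, a.Countable := fun a ha =>
  h.fit.xc.mono (h.fit.Sx a ha)

end Pool.MP_d8f801_lc.SC
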