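import Pool.Agent.Lib.MP_d8f801_lc.SC.C.Mix

/-!
# SC/C: the standard amalgam (module C-Mx)

* standard amalgams (`Fork L p q`: `p, q ≤ L`, `p.x ∩ q.x = L.x` and `p.b a = L.b a` for all promises `a` of `L`):
  `mx p q η := mix p q η (fun a => p.b a ∪ q.b a) (fun a y => if y ∈ p.b a then p.t a y else q.t a y)`.
  In a fork: `p.F α ξ = q.F α ξ` for `α ξ ∈ p.x ∩ q.x = L.x` (both are `L.F α ξ`), the same for `c`; if `a ∈ p.S` and `a ⊆ q.x` then `a ⊆ L.x`, so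
  `a ∈ L.S` and `a ∈ q.S`; and conversely. If `a ∈ p.S ∩ q.S` then `a ∈ L.S`, `p.b a = L.b a ⊆ q.b a`, and `q.t` extends `L.t a = p.t a` on
  `p.b a`. So `(mx p q η).b a = q.b a` for `a ∈ q.S` and `= p.b a` for `a ∈ p.S \ q.S` (`b0`), and the same for `t`.
  - `le_mx_left`, `le_mx_right`: check; for `b`: for `a ∈ p.S ∩ q.S`, `q.b a ∩ p.x = q.b a ∩ L.x` (`q.b a ⊆ q.x` for type B; it is
    empty for type A) `= L.b a = p.b a`; for `a ∈ p.S \ q.S`, `p.b a ∩ p.x = p.b a`. For `a ∈ q.S`: `q.b a ∩ q.x = q.b a`.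
  - `ok_mx`: `ok_mix` with `Bok.mono` (from `p` or from `q`). `hKp`: `a ∈ p.S`, `a ⊆ q.x` implies `a ∈ q.S`, so the requirement for `q` applies.
  - `rs_mx`: if moreover `q.x ⊆ R` and `p.x ∩ R = L.x` then `rs (mx p q η) R = q`.
-/

set_option autoImplicit false
set_option linter.unusedSectionVars false

universe u

namespace Pool.MP_d8f801_lc.SC

open Cardinal Set Filter

variable {X : Type u} [Stg X]

/-- the standard situation for amalgams -/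
structure Fork (L p q : Pre X) : Prop where
  lp : Le p L
  lq : Le q L
  xx : p.x ∩ q.x = L.x
  bb : ∀ a ∈ L.S, p.b a = L.b a

open Classical in
/-- the standard amalgam -/
noncomputable def mx (p q : Pre X) (η : X) : Pre X :=
  mix p q η (fun a => p.b a ∪ q.b a) (fun a y => if y ∈ p.b a then p.t a y else q.t a y)

private theorem fit_bx {ty : Bool} {p : Pre X} (hp : Fit ty p) (a : Set X) : p.b a ⊆ p.x := by
  by_cases ha : a ∈ p.S
  · cases ty with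
    | false => rw [hp.b0 a (Or.inl rfl)]; exact empty_subset _
    | true => exact (hp.B1 rfl a ha).2
  · rw [hp.b0 a (Or.inr ha)]; exact empty_subset _

private theorem fork_F {L p q : Pre X} (h : Fork L p q) : ∀ α ∈ p.x, α ∈ q.x → ∀ ξ ∈ p.x, ξ ∈ q.x →
    p.F α ξ = q.F α ξ := by
  intro α h1 h2 ξ h3 h4
  have h5 : α ∈ L.x := h.xx ▸ ⟨h1, h2⟩
  have h6 : ξ ∈ L.x := h.xx ▸ ⟨h3, h4⟩
  rw [h.lp.F α h5 ξ h6, h.lq.F α h5 ξ h6]

private theorem fork_c {L p q : Pre X} (h : Fork L p q) : ∀ α ∈ p.x, α ∈ q.x → ∀ ξ ∈ p.x, ξ ∈ q.x →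
    p.c α ξ = q.c α ξ := by
  intro α h1 h2 ξ h3 h4
  have h5 : α ∈ L.x := h.xx ▸ ⟨h1, h2⟩
  have h6 : ξ ∈ L.x := h.xx ▸ ⟨h3, h4⟩
  rw [h.lp.c α h5 ξ h6, h.lq.c α h5 ξ h6]

private theorem fork_Sp {ty : Bool} {L p q : Pre X} (hp : Fit ty p) (h : Fork L p q) {a : Set X}
    (ha : a ∈ p.S) (haq : a ⊆ q.x) : a ∈ L.S ∧ a ∈ q.S := by
  have h1 : a ⊆ L.x := h.xx ▸ subset_inter (hp.Sx a ha) haq
  have h2 := (h.lp.S a h1).1 ha
  exact ⟨h2, (h.lq.S a h1).2 h2⟩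

private theorem fork_Sq {ty : Bool} {L p q : Pre X} (hq : Fit ty q) (h : Fork L p q) {a : Set X}
    (ha : a ∈ q.S) (hap : a ⊆ p.x) : a ∈ L.S ∧ a ∈ p.S := by
  have h1 : a ⊆ L.x := h.xx ▸ subset_inter hap (hq.Sx a ha)
  have h2 := (h.lq.S a h1).1 ha
  exact ⟨h2, (h.lp.S a h1).2 h2⟩

private theorem fork_b {L p q : Pre X} (h : Fork L p q) {a : Set X} (ha : a ∈ L.S) : p.b a ⊆ q.b a := by
  rw [h.bb a ha, ← h.lq.b a ha]
  exact inter_subset_left

private theorem fork_t {L p q : Pre X} (h : Fork L p q) {a : Set X} (ha : a ∈ L.S) {y : X} (hy : y ∈ p.b a) :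
    p.t a y = q.t a y := by
  rw [h.bb a ha] at hy
  rw [h.lp.t a ha y hy, h.lq.t a ha y hy]

private theorem mx_bq {ty : Bool} {L p q : Pre X} {η : X} (hp : Fit ty p) (hq : Fit ty q)
    (h : Fork L p q) {a : Set X} (ha : a ∈ q.S) : (mx p q η).b a = q.b a := by
  have h1 : p.b a ⊆ q.b a := by
    by_cases hap : a ∈ p.S
    · exact fork_b h (fork_Sq hq h ha (hp.Sx a hap)).1
    · rw [hp.b0 a (Or.inr hap)]; exact empty_subset _
  unfold mx mix
  simp only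
  have hS : a ∈ p.S ∪ q.S := Or.inr ha
  rw [if_pos hS, union_eq_right.2 h1]

private theorem mx_bp {ty : Bool} {p q : Pre X} {η : X} (hq : Fit ty q)
    {a : Set X} (ha : a ∈ p.S) (haq : a ∉ q.S) : (mx p q η).b a = p.b a := by
  unfold mx mix
  simp only
  have hS : a ∈ p.S ∪ q.S := Or.inl ha
  rw [if_pos hS, hq.b0 a (Or.inr haq), union_empty]

private theorem mx_tq {ty : Bool} {L p q : Pre X} {η : X} (hp : Fit ty p) (hq : Fit ty q)
    (h : Fork L p q) {a : Set X} (ha : a ∈ q.S) (y : X) : (mx p q η).t a y = q.t a y := by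
  unfold mx mix
  simp only
  by_cases hy : y ∈ p.b a
  · have hap : a ∈ p.S := by
      by_contra hap
      rw [hp.b0 a (Or.inr hap)] at hy
      exact hy
    rw [if_pos ⟨Or.inr ha, Or.inl hy⟩, if_pos hy]
    exact fork_t h (fork_Sq hq h ha (hp.Sx a hap)).1 hy
  · by_cases hy' : y ∈ q.b a
    · rw [if_pos ⟨Or.inr ha, Or.inr hy'⟩, if_neg hy]
    · rw [if_neg (fun h' => h'.2.elim hy hy'), hq.t0 a y hy']

private theorem mx_tp {p q : Pre X} {η : X} {a : Set X} (ha : a ∈ p.S) {y : X} (hy : y ∈ p.b a) :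
    (mx p q η).t a y = p.t a y := by
  unfold mx mix
  simp only
  rw [if_pos ⟨Or.inl ha, Or.inl hy⟩, if_pos hy]

theorem le_mx_left {ty : Bool} {L p q : Pre X} {η : X} (hL : Ok ty L) (hp : Ok ty p) (hq : Ok ty q) (h : Fork L p q) :
    Le (mx p q η) p := by
  have _hL := hL
  refine ⟨subset_union_left, fun α hα ξ hξ => ?_, fun α hα ξ hξ => ?_, fun a ha => ?_, fun a ha => ?_,
    fun a ha y hy => mx_tp ha hy⟩
  · unfold mx mix
    simp only
    rw [if_pos ⟨hα, hξ⟩]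
  · unfold mx mix
    simp only
    rw [if_pos ⟨hα, hξ⟩]
  · constructor
    · rintro (h1 | h1)
      · exact h1
      · exact (fork_Sq hq.fit h h1 ha).2
    · exact fun h1 => Or.inl h1
  · by_cases haq : a ∈ q.S
    · have h1 : a ∈ L.S := (fork_Sp hp.fit h ha (hq.fit.Sx a haq)).1
      rw [mx_bq hp.fit hq.fit h haq]
      have h2 : q.b a ∩ p.x = q.b a ∩ L.x := by
        rw [← h.xx]
        ext y
        constructor
        · rintro ⟨h3, h4⟩
          exact ⟨h3, h4, fit_bx hq.fit a h3⟩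
        · rintro ⟨h3, h4, _⟩
          exact ⟨h3, h4⟩
      rw [h2, h.lq.b a h1, h.bb a h1]
    · rw [mx_bp hq.fit ha haq]
      exact inter_eq_left.2 (fit_bx hp.fit a)

theorem le_mx_right {ty : Bool} {L p q : Pre X} {η : X} (hL : Ok ty L) (hp : Ok ty p) (hq : Ok ty q)
    (h : Fork L p q) : Le (mx p q η) q := by
  have _hL := hL
  refine ⟨subset_union_right, fun α hα ξ hξ => ?_, fun α hα ξ hξ => ?_, fun a ha => ?_, fun a ha => ?_,
    fun a ha y _ => mx_tq hp.fit hq.fit h ha y⟩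
  · unfold mx mix
    simp only
    by_cases h1 : α ∈ p.x ∧ ξ ∈ p.x
    · rw [if_pos h1]
      exact fork_F h α h1.1 hα ξ h1.2 hξ
    · rw [if_neg h1, if_pos ⟨hα, hξ⟩]
  · unfold mx mix
    simp only
    by_cases h1 : α ∈ p.x ∧ ξ ∈ p.x
    · rw [if_pos h1]
      exact fork_c h α h1.1 hα ξ h1.2 hξ
    · rw [if_neg h1, if_pos ⟨hα, hξ⟩]
  · constructor
    · rintro (h1 | h1)
      · exact (fork_Sp hp.fit h h1 ha).2
      · exact h1
    · exact fun h1 => Or.inr h1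
  · rw [mx_bq hp.fit hq.fit h ha]
    exact inter_eq_left.2 (fit_bx hq.fit a)

theorem ok_mx {ty : Bool} {L p q : Pre X} {η : X} (hL : Ok ty L) (hp : Ok ty p) (hq : Ok ty q) (h : Fork L p q)
    (hη : η < w1) (hηp : ∀ a ∈ p.S, dl a ≤ η) (hηq : ∀ a ∈ q.S, dl a ≤ η) : Ok ty (mx p q η) := by
  have hl := le_mx_left (η := η) hL hp hq h
  have hr := le_mx_right (η := η) hL hp hq h
  unfold mx at hl hr ⊢
  refine ok_mix hp.bas hq.bas hη hηp hηq (fork_F h) ?_ (fun a _ => subset_union_left)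
    (fun a _ => subset_union_right) ?_ ?_ ?_
  · intro ht a
    show p.b a ∪ q.b a = ∅
    rw [hp.fit.b0 a (Or.inl ht), hq.fit.b0 a (Or.inl ht), union_empty]
  · intro a ha haq ξ hξ _ h2 h3
    refine hq.fit.K a (fork_Sp hp.fit h ha haq).2 ξ hξ ?_
    cases ty with
    | false => exact h2 rfl
    | true => exact fun h4 => h3 rfl (Or.inr h4)
  · intro a ha hap ξ hξ _ h2 h3
    refine hp.fit.K a (fork_Sq hq.fit h ha hap).2 ξ hξ ?_
    cases ty with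
    | false => exact h2 rfl
    | true => exact fun h4 => h3 rfl (Or.inl h4)
  · intro ht a ha
    subst ht
    by_cases haq : a ∈ q.S
    · exact Bok.mono (hq.bok haq) haq hr (mx_bq hp.fit hq.fit h haq)
    · have hap : a ∈ p.S := ha.resolve_right haq
      exact Bok.mono (hp.bok hap) hap hl (mx_bp hq.fit hap haq)

open Classical in
theorem rs_mx {ty : Bool} {L p q : Pre X} {η : X} (hL : Ok ty L) (hp : Ok ty p) (hq : Ok ty q) (h : Fork L p q)
    {R : Set X} (hqR : q.x ⊆ R) (hpR : p.x ∩ R = L.x) : rs (mx p q η) R = q := by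
  have _hL := hL
  have hLq : L.x ⊆ q.x := h.lq.x
  have hpq : ∀ α ∈ p.x, α ∈ R → α ∈ q.x := fun α h1 h2 => hLq (hpR ▸ ⟨h1, h2⟩)
  have hmx : ∀ α, α ∈ p.x ∪ q.x → α ∈ R → α ∈ q.x := by
    rintro α (h1 | h1) h2
    · exact hpq α h1 h2
    · exact h1
  have hS : ∀ a, (a ∈ p.S ∪ q.S ∧ a ⊆ R) ↔ a ∈ q.S := by
    intro a
    constructor
    · rintro ⟨h1 | h1, h2⟩
      · exact (fork_Sp hp.fit h h1 fun α h3 => hpq α (hp.fit.Sx a h1 h3) (h2 h3)).2
      · exact h1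
    · exact fun h1 => ⟨Or.inr h1, (hq.fit.Sx a h1).trans hqR⟩
  have hr := le_mx_right (η := η) hL hp hq h
  have hF : ∀ α ξ, α ∈ q.x → ξ ∈ q.x → (mx p q η).F α ξ = q.F α ξ := fun α ξ h1 h2 => hr.F α h1 ξ h2
  have hc : ∀ α ξ, α ∈ q.x → ξ ∈ q.x → (mx p q η).c α ξ = q.c α ξ := fun α ξ h1 h2 => hr.c α h1 ξ h2
  apply Pre.ext
  · show (p.x ∪ q.x) ∩ R = q.x
    ext α
    exact ⟨fun h1 => hmx α h1.1 h1.2, fun h1 => ⟨Or.inr h1, hqR h1⟩⟩
  · funext α ξ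
    by_cases h1 : α ∈ q.x ∧ ξ ∈ q.x
    · show (if α ∈ R ∧ ξ ∈ R then (mx p q η).F α ξ else ⊥) = q.F α ξ
      rw [if_pos ⟨hqR h1.1, hqR h1.2⟩, hF α ξ h1.1 h1.2]
    · have h2 : q.F α ξ = ⊥ := by
        by_contra h3
        exact h1 (hq.fit.F0 α ξ h3)
      rw [h2]
      show (if α ∈ R ∧ ξ ∈ R then (mx p q η).F α ξ else ⊥) = ⊥
      by_cases h3 : α ∈ R ∧ ξ ∈ R
      · rw [if_pos h3]
        unfold mx mix
        simp only
        rw [if_neg (fun h4 => h1 ⟨hpq α h4.1 h3.1, hpq ξ h4.2 h3.2⟩), if_neg h1,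
          if_neg (fun h4 => h1 ⟨hmx α h4.1 h3.1, hmx ξ h4.2 h3.2⟩)]
      · rw [if_neg h3]
  · funext α ξ
    by_cases h1 : α ∈ q.x ∧ ξ ∈ q.x
    · show (if α ∈ R ∧ ξ ∈ R then (mx p q η).c α ξ else ⊥) = q.c α ξ
      rw [if_pos ⟨hqR h1.1, hqR h1.2⟩, hc α ξ h1.1 h1.2]
    · have h2 : q.c α ξ = ⊥ := by
        by_contra h3
        exact h1 ⟨(hq.fit.cv α ξ h3).1, (hq.fit.cv α ξ h3).2.1⟩
      rw [h2]
      show (if α ∈ R ∧ ξ ∈ R then (mx p q η).c α ξ else ⊥) = ⊥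
      by_cases h3 : α ∈ R ∧ ξ ∈ R
      · rw [if_pos h3]
        unfold mx mix
        simp only
        rw [if_neg (fun h4 => h1 ⟨hpq α h4.1 h3.1, hpq ξ h4.2 h3.2⟩), if_neg h1]
      · rw [if_neg h3]
  · ext a
    exact hS a
  · funext a
    unfold rs
    simp only
    by_cases h1 : a ∈ q.S
    · have h2 : a ∈ (mx p q η).S ∧ a ⊆ R := (hS a).2 h1
      rw [if_pos h2, mx_bq hp.fit hq.fit h h1]
    · have h2 : ¬ (a ∈ (mx p q η).S ∧ a ⊆ R) := fun h2 => h1 ((hS a).1 h2)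
      rw [if_neg h2, hq.fit.b0 a (Or.inr h1)]
  · funext a y
    unfold rs
    simp only
    by_cases h1 : a ∈ q.S
    · have h2 : a ∈ (mx p q η).S ∧ a ⊆ R := (hS a).2 h1
      rw [if_pos h2, mx_tq hp.fit hq.fit h h1]
    · have h2 : ¬ (a ∈ (mx p q η).S ∧ a ⊆ R) := fun h2 => h1 ((hS a).1 h2)
      rw [if_neg h2, hq.fit.t0 a y]
      rw [hq.fit.b0 a (Or.inr h1)]
      exact fun h3 => h3

/-- the value at new pairs -/
theorem mx_new {p q : Pre X} {η α ξ : X} (hα : α ∈ p.x ∪ q.x) (hξ : ξ ∈ p.x ∪ q.x)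
    (h1 : ¬ (α ∈ p.x ∧ ξ ∈ p.x)) (h2 : ¬ (α ∈ q.x ∧ ξ ∈ q.x)) : (mx p q η).F α ξ = η := by
  unfold mx mix
  simp only
  rw [if_neg h1, if_neg h2, if_pos ⟨hα, hξ⟩]

end Pool.MP_d8f801_lc.SC
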