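import Pool.Agent.Lib.MP_d8f801_lc.SC.C.Emp
import Pool.Agent.Lib.MP_d8f801_lc.SC.C.Mx
import Pool.Agent.Lib.MP_d8f801_lc.SC.K.Lam

/-!
# SC/C: the limit (root) of a function from `κ` to conditions (module C-Lim)

`Rt f`: the elements which belong to the support of `f ν` for almost all `ν`.

* `rt_ctbl`: otherwise there is `A ⊆ Rt f` with `#A = ℵ₁ ≤ #(Iio w1)` (a small set, not countable); by `uf_all` `A ⊆ (f ν).x` for some `ν` with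
  `Ok ty (f ν)`, contradiction.
* `exists_lim`: write `R = Rt f`. All components of `rs (f ν) R` are almost everywhere constant:
  `x`: `(f ν).x ∩ R = R` a.e. (`uf_all` over the countable set `R`). `F`: for `α ξ ∈ R` the values are `< w1` (`Fv`), so a.e. constant by `uf_const`
  (`sm_Iio`); `uf_all` over the pairs. `c`: for `α ξ ∈ R`: if `α < kk` the values are `⊥` or `< α` (`cv`), a small set; if not they are `⊥`.
  `S`: for every `a ⊆ R` (`Sm.powerset`: there are few) either `a ∈ (f ν).S` a.e. or `a ∉ (f ν).S` a.e.; `uf_all`. Let `S₀` be the set of the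
  `a ⊆ R` with `a ∈ (f ν).S` a.e. `b` for `a ∈ S₀` (type B): `(f ν).b a = hul a ((f ν).b a ∩ Iio kk)`, and `(f ν).b a ∩ Iio kk ⊆ Iio (lam a)` by
  `B2'`; the set `𝒫 (Iio (lam a))` is small (`lam_spec`), so `(f ν).b a ∩ Iio kk` and so `(f ν).b a` is a.e. constant with value `B a`, a countable set;
  `B a ⊆ (f ν).x` a.e., so `B a ⊆ R`. `S₀` is countable (`S₀ ⊆ (f ν).S` for some `ν`, by `uf_all` over the small set of subsets of `R`).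
  `t`: for `a ∈ S₀`, `y ∈ B a` the value belongs to `(f ν).b a` by (B5) (`Bdec`), which is a.e. `B a`, a countable set, so it is a.e. constant
  (`uf_const`). So `rs (f ν) R` is a.e. constant (`Pre.ext`), let `L` be its value. `ok_rs` (the hypothesis `hb` was proved: `(f ν).b a = B a ⊆ R` for
  `a ∈ (f ν).S`, `a ⊆ R`; for type A `(f ν).b a = ∅`) gives `Ok ty L` and `Le (f ν) L` a.e.
* `lim_fork`: let `x ∈ s.x \ Rt f`: a.e. `x ∉ (f ν).x` (`uf_not`); `s.x` is countable; so a.e. `(f ν).x ∩ s.x ⊆ Rt f = L.x`, and `L.x` is contained in both.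
-/

set_option autoImplicit false

universe u

namespace Pool.MP_d8f801_lc.SC

open Cardinal Set Filter

variable {X : Type u} [Stg X]

/-- the elements which are almost always in the support -/
def Rt (f : X → Pre X) : Set X := {x | ∀ᶠ ν in Uf X, x ∈ (f ν).x}

/-- `L` is the limit of `f` -/
structure IsLim (ty : Bool) (f : X → Pre X) (L : Pre X) : Prop where
  ok : Ok ty L
  lx : L.x = Rt f
  rs : ∀ᶠ ν in Uf X, rs (f ν) (Rt f) = L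
  le : ∀ᶠ ν in Uf X, Le (f ν) L
  lb : ∀ᶠ ν in Uf X, ∀ a ∈ L.S, (f ν).b a = L.b a

theorem rt_ctbl {ty : Bool} {f : X → Pre X} (hf : ∀ᶠ ν in Uf X, Ok ty (f ν)) : (Rt f).Countable := by
  by_contra hnc
  have h1 : ℵ₀ < #(Rt f) := by
    rw [← not_le, Cardinal.mk_le_aleph0_iff]
    exact fun h => hnc (Set.countable_coe_iff.1 h)
  have h2 : Cardinal.aleph 1 ≤ #(Rt f) := by
    rw [← Cardinal.succ_aleph0]
    exact Order.succ_le_of_lt h1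
  obtain ⟨A, hA, hAc⟩ := (Cardinal.le_mk_iff_exists_subset).1 h2
  have h3 : #A ≤ #(Set.Iio (w1 : X)) := by
    rw [hAc, ← Cardinal.succ_aleph0]
    apply Order.succ_le_of_lt
    rw [← not_le, Cardinal.mk_le_aleph0_iff]
    exact fun h => Stg.w1_unc (X := X) (Set.countable_coe_iff.1 h)
  have h4 : Sm X A := lt_of_le_of_lt h3 (Stg.kk_min _ Stg.w1_lt)
  have h5 : ∀ᶠ ν in Uf X, ∀ a ∈ A, a ∈ (f ν).x := uf_all h4 fun a ha => hA ha
  obtain ⟨ν, h6, h7⟩ := (h5.and hf).exists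
  have h8 : A.Countable := h7.fit.xc.mono h6
  have h9 : #A ≤ ℵ₀ := Cardinal.mk_le_aleph0_iff.2 (Set.countable_coe_iff.2 h8)
  rw [hAc, ← Cardinal.succ_aleph0] at h9
  exact absurd h9 (not_le.2 (Order.lt_succ _))

theorem exists_lim {ty : Bool} {f : X → Pre X} (hf : ∀ᶠ ν in Uf X, Ok ty (f ν)) : ∃ L, IsLim ty f L := by
  classical
  have hRc := rt_ctbl hf
  have hRs : Sm X (Rt f) := Sm.of_countable hRc
  have hPs : Sm X (𝒫 (Rt f)) := hRs.powerset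
  -- the support
  have ex : ∀ᶠ ν in Uf X, ∀ x ∈ Rt f, x ∈ (f ν).x := uf_all hRs fun x hx => hx
  -- `F`
  have eF : ∀ z : X × X, ∃ v, ∀ᶠ ν in Uf X, (f ν).F z.1 z.2 = v := by
    intro z
    obtain ⟨v, _, hv⟩ := uf_const (sm_Iio (X := X) Stg.w1_lt) (f := fun ν => (f ν).F z.1 z.2)
      (hf.mono fun ν h => h.fit.Fv _ _)
    exact ⟨v, hv⟩
  choose F₀ hF₀ using eF
  have eF' : ∀ᶠ ν in Uf X, ∀ z ∈ (Rt f) ×ˢ (Rt f), (f ν).F z.1 z.2 = F₀ z :=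
    uf_all (hRs.prod hRs) fun z _ => hF₀ z
  -- `c`
  have ec : ∀ z : X × X, ∃ v, ∀ᶠ ν in Uf X, (f ν).c z.1 z.2 = v := by
    intro z
    by_cases hz : z.1 < kk
    · have hs : Sm X (Iio z.1 ∪ {⊥}) :=
        (sm_Iio hz).union (Sm.of_countable (countable_singleton _))
      obtain ⟨v, _, hv⟩ := uf_const hs (f := fun ν => (f ν).c z.1 z.2) (hf.mono fun ν h => by
        by_cases h0 : (f ν).c z.1 z.2 = ⊥
        · exact Or.inr h0
        · exact Or.inl (h.fit.cv _ _ h0).2.2.2.2)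
      exact ⟨v, hv⟩
    · exact ⟨⊥, hf.mono fun ν h => by
        by_contra h0
        exact hz (h.fit.cv _ _ h0).2.2.1⟩
  choose c₀ hc₀ using ec
  have ec' : ∀ᶠ ν in Uf X, ∀ z ∈ (Rt f) ×ˢ (Rt f), (f ν).c z.1 z.2 = c₀ z :=
    uf_all (hRs.prod hRs) fun z _ => hc₀ z
  -- `S`
  obtain ⟨S₀, hS₀⟩ : ∃ S₀ : Set (Set X), ∀ a, a ∈ S₀ ↔ ∀ᶠ ν in Uf X, a ∈ (f ν).S :=
    ⟨{a | ∀ᶠ ν in Uf X, a ∈ (f ν).S}, fun a => Iff.rfl⟩
  have eS : ∀ᶠ ν in Uf X, ∀ a ∈ 𝒫 (Rt f), (a ∈ (f ν).S ↔ a ∈ S₀) := by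
    refine uf_all hPs fun a _ => ?_
    by_cases ha : a ∈ S₀
    · exact ((hS₀ a).1 ha).mono fun ν h => ⟨fun _ => ha, fun _ => h⟩
    · exact (uf_not fun h => ha ((hS₀ a).2 h)).mono fun ν h => ⟨fun h' => absurd h' h, fun h' => absurd h' ha⟩
  -- `b`
  have eb : ∀ a ∈ 𝒫 (Rt f), ∃ B : Set X, (∀ᶠ ν in Uf X, (f ν).b a = B) := by
    intro a haR
    by_cases hty : ty = true
    · subst hty
      by_cases ha : a ∈ S₀
      · have hac : a.Countable := hRc.mono haR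
        have h1 : ∀ᶠ ν in Uf X, (f ν).b a ∩ Iio kk ∈ 𝒫 (Iio (lam a)) :=
          (((hS₀ a).1 ha).and hf).mono fun ν h ξ hξ => h.2.fit.B2' rfl a h.1 ξ hξ.1 hξ.2
        obtain ⟨C, _, hC⟩ := uf_const (sm_Iio (lam_spec hac).1).powerset
          (f := fun ν => (f ν).b a ∩ Iio kk) h1
        refine ⟨hul a C, ((((hS₀ a).1 ha).and hf).and hC).mono fun ν h => ?_⟩
        rw [h.1.2.fit.B2 rfl a h.1.1, h.2]
      · refine ⟨∅, ((uf_not fun h => ha ((hS₀ a).2 h)).and hf).mono fun ν h => ?_⟩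
        exact h.2.fit.b0 a (Or.inr h.1)
    · refine ⟨∅, hf.mono fun ν h => h.fit.b0 a (Or.inl (by simpa using hty))⟩
  choose! B hB using eb
  have eb' : ∀ᶠ ν in Uf X, ∀ a ∈ 𝒫 (Rt f), (f ν).b a = B a := uf_all hPs hB
  have hbx : ∀ {p : Pre X}, Ok ty p → ∀ a y, y ∈ p.b a → ty = true ∧ a ∈ p.S ∧ y ∈ p.x := by
    intro p hp a y hy
    by_cases hty : ty = true
    · by_cases ha : a ∈ p.S
      · exact ⟨hty, ha, (hp.fit.B1 hty a ha).2 hy⟩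
      · rw [hp.fit.b0 a (Or.inr ha)] at hy
        exact absurd hy (notMem_empty _)
    · rw [hp.fit.b0 a (Or.inl (by simpa using hty))] at hy
      exact absurd hy (notMem_empty _)
  have hBR : ∀ a ∈ 𝒫 (Rt f), B a ⊆ Rt f := by
    intro a ha y hy
    refine ((hB a ha).and hf).mono fun ν h => ?_
    rw [← h.1] at hy
    exact (hbx h.2 a y hy).2.2
  -- `t`
  have et : ∀ z ∈ 𝒫 (Rt f) ×ˢ (Rt f), ∃ v, ∀ᶠ ν in Uf X, (f ν).t z.1 z.2 = v := by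
    rintro ⟨a, y⟩ ⟨ha, hy⟩
    simp only at ha hy
    by_cases hyB : y ∈ B a
    · have h1 : ∀ᶠ ν in Uf X, (f ν).t a y ∈ B a := by
        refine ((hB a ha).and hf).mono fun ν h => ?_
        rw [← h.1] at hyB ⊢
        obtain ⟨h2, h3, _⟩ := hbx h.2 a y hyB
        obtain ⟨τ, h4, h5, _⟩ := h.2.2 h2 a h3 y hyB
        rw [h4]
        exact h5
      obtain ⟨v, _, hv⟩ := uf_const (Sm.of_countable (hRc.mono (hBR a ha)))
        (f := fun ν => (f ν).t a y) h1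
      exact ⟨v, hv⟩
    · refine ⟨⊥, ((hB a ha).and hf).mono fun ν h => ?_⟩
      rw [← h.1] at hyB
      exact h.2.fit.t0 a y hyB
  choose! T hT using et
  have et' : ∀ᶠ ν in Uf X, ∀ z ∈ 𝒫 (Rt f) ×ˢ (Rt f), (f ν).t z.1 z.2 = T z :=
    uf_all (hPs.prod hRs) hT
  have hE := ((((((hf.and ex).and eF').and ec').and eS).and eb').and et')
  obtain ⟨ν₀, ⟨⟨⟨⟨⟨o0, x0⟩, F0⟩, c0⟩, S0⟩, b0⟩, t0⟩ := hE.exists
  have hrs : ∀ ν, ((((((Ok ty (f ν) ∧ ∀ x ∈ Rt f, x ∈ (f ν).x) ∧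
      ∀ z ∈ (Rt f) ×ˢ (Rt f), (f ν).F z.1 z.2 = F₀ z) ∧
      ∀ z ∈ (Rt f) ×ˢ (Rt f), (f ν).c z.1 z.2 = c₀ z) ∧
      ∀ a ∈ 𝒫 (Rt f), (a ∈ (f ν).S ↔ a ∈ S₀)) ∧
      ∀ a ∈ 𝒫 (Rt f), (f ν).b a = B a) ∧
      ∀ z ∈ 𝒫 (Rt f) ×ˢ (Rt f), (f ν).t z.1 z.2 = T z) → rs (f ν) (Rt f) = rs (f ν₀) (Rt f) := by
    rintro ν ⟨⟨⟨⟨⟨⟨o1, x1⟩, F1⟩, c1⟩, S1⟩, b1⟩, t1⟩
    apply Pre.ext
    · show (f ν).x ∩ Rt f = (f ν₀).x ∩ Rt f
      rw [inter_eq_right.2 x1, inter_eq_right.2 x0]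
    · funext α ξ
      show (if α ∈ Rt f ∧ ξ ∈ Rt f then (f ν).F α ξ else ⊥) = (if α ∈ Rt f ∧ ξ ∈ Rt f then (f ν₀).F α ξ else ⊥)
      split_ifs with h
      · rw [F1 (α, ξ) h, F0 (α, ξ) h]
      · rfl
    · funext α ξ
      show (if α ∈ Rt f ∧ ξ ∈ Rt f then (f ν).c α ξ else ⊥) = (if α ∈ Rt f ∧ ξ ∈ Rt f then (f ν₀).c α ξ else ⊥)
      split_ifs with h
      · rw [c1 (α, ξ) h, c0 (α, ξ) h]
      · rfl
    · ext a
      show (a ∈ (f ν).S ∧ a ⊆ Rt f) ↔ (a ∈ (f ν₀).S ∧ a ⊆ Rt f)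
      constructor
      · rintro ⟨h1, h2⟩
        exact ⟨(S0 a h2).2 ((S1 a h2).1 h1), h2⟩
      · rintro ⟨h1, h2⟩
        exact ⟨(S1 a h2).2 ((S0 a h2).1 h1), h2⟩
    · funext a
      show (if a ∈ (f ν).S ∧ a ⊆ Rt f then (f ν).b a else ∅) = (if a ∈ (f ν₀).S ∧ a ⊆ Rt f then (f ν₀).b a else ∅)
      by_cases h2 : a ⊆ Rt f
      · have h3 : a ∈ (f ν).S ∧ a ⊆ Rt f ↔ a ∈ (f ν₀).S ∧ a ⊆ Rt f := by
          rw [S1 a h2, S0 a h2]
        simp only [h3, b1 a h2, b0 a h2]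
      · rw [if_neg (fun h => h2 h.2), if_neg (fun h => h2 h.2)]
    · funext a y
      show (if a ∈ (f ν).S ∧ a ⊆ Rt f then (f ν).t a y else ⊥) =
        (if a ∈ (f ν₀).S ∧ a ⊆ Rt f then (f ν₀).t a y else ⊥)
      by_cases h2 : a ⊆ Rt f
      · have h3 : a ∈ (f ν).S ∧ a ⊆ Rt f ↔ a ∈ (f ν₀).S ∧ a ⊆ Rt f := by
          rw [S1 a h2, S0 a h2]
        have h4 : (f ν).t a y = (f ν₀).t a y := by
          by_cases h5 : y ∈ Rt f
          · rw [t1 (a, y) ⟨h2, h5⟩, t0 (a, y) ⟨h2, h5⟩]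
          · rw [o1.fit.t0 a y (fun h6 => h5 (hBR a h2 (b1 a h2 ▸ h6))),
              o0.fit.t0 a y (fun h6 => h5 (hBR a h2 (b0 a h2 ▸ h6)))]
        simp only [h3, h4]
      · rw [if_neg (fun h => h2 h.2), if_neg (fun h => h2 h.2)]
  have hok : ∀ ν, Ok ty (f ν) → (∀ a ∈ 𝒫 (Rt f), (f ν).b a = B a) →
      Ok ty (rs (f ν) (Rt f)) ∧ Le (f ν) (rs (f ν) (Rt f)) := fun ν h1 h2 =>
    ok_rs h1 fun a _ ha => by rw [h2 a ha]; exact hBR a ha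
  refine ⟨rs (f ν₀) (Rt f), (hok ν₀ o0 b0).1, ?_, hE.mono fun ν h => hrs ν h, hE.mono fun ν h => ?_,
    hE.mono fun ν h => ?_⟩
  · show (f ν₀).x ∩ Rt f = Rt f
    exact inter_eq_right.2 x0
  · rw [← hrs ν h]
    exact (hok ν h.1.1.1.1.1.1 h.1.2).2
  · rintro a ⟨ha, haR⟩
    show (f ν).b a = (if a ∈ (f ν₀).S ∧ a ⊆ Rt f then (f ν₀).b a else ∅)
    rw [if_pos ⟨ha, haR⟩, h.1.2 a haR, b0 a haR]

theorem lim_fork {ty : Bool} {f : X → Pre X} (hf : ∀ᶠ ν in Uf X, Ok ty (f ν)) {L s : Pre X} (hL : IsLim ty f L)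
    (hs : Ok ty s) (h : Le s L) : ∀ᶠ ν in Uf X, Fork L (f ν) s := by
  have h1 : ∀ᶠ ν in Uf X, ∀ x ∈ s.x \ Rt f, ¬ x ∈ (f ν).x :=
    uf_all (Sm.of_countable (hs.fit.xc.mono sdiff_subset)) fun x hx => uf_not hx.2
  refine (((h1.and hf).and hL.le).and hL.lb).mono fun ν hν => ?_
  obtain ⟨⟨⟨h2, h3⟩, h4⟩, h5⟩ := hν
  refine ⟨h4, h, Subset.antisymm ?_ (subset_inter h4.x h.x), h5⟩
  rintro x ⟨hx1, hx2⟩
  rw [hL.lx]
  by_contra hx3
  exact h2 x ⟨hx2, hx3⟩ hx1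

end Pool.MP_d8f801_lc.SC
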