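import Pool.Agent.Lib.MP_d8f801_lc.SC.C.Restrict
import Pool.Agent.Lib.MP_d8f801_lc.SC.C.Bok

/-!
# SC/C: amalgams (module C-Mix)

`mix p q η b t`: the union of `p` and `q`; `F` has the value `η` at new pairs, `c` has the value `⊥` there; `b`, `t` are
given (they are made trivial outside the promises).

* `ok_mix`: by `ok_iff`; the basic requirements, one by one. `F0`, `cv`: new pairs are pairs of elements of `p.x ∪ q.x`.
  `K` for `a ∈ p.S`, `ξ ∈ p.x ∪ q.x` outside the region: if `ξ ∈ p.x` then `ξ ∉ p.reg ty a` (`hbp`) and the requirement for `p` gives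
  `α ∈ a ⊆ p.x` with `dl a ≤ p.F α ξ`, and the value at the pair is `p.F α ξ`. Let `ξ ∉ p.x`, so `ξ ∈ q.x`. If `a ⊆ q.x` then `hKp` gives
  `α ∈ a` with `dl a ≤ q.F α ξ`, and the value at `(α, ξ)` is `q.F α ξ` since `ξ ∉ p.x`. If not let `α ∈ a \ q.x`: `(α, ξ)` is a new
  pair, value `η ≥ dl a`. For `a ∈ q.S`: if `ξ ∈ q.x` then the requirement for `q` gives `α ∈ a ⊆ q.x` with `dl a ≤ q.F α ξ`, and
  the value at `(α, ξ)` is `q.F α ξ` if not both belong to `p.x`, and otherwise `p.F α ξ = q.F α ξ` by `hF`. `ξ ∉ q.x`: as above.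
-/

set_option autoImplicit false

universe u

namespace Pool.MP_d8f801_lc.SC

open Cardinal Set Filter

variable {X : Type u} [Stg X]

open Classical in
/-- the general amalgam -/
noncomputable def mix (p q : Pre X) (η : X) (b : Set X → Set X) (t : Set X → X → X) : Pre X where
  x := p.x ∪ q.x
  F := fun α ξ => if α ∈ p.x ∧ ξ ∈ p.x then p.F α ξ else if α ∈ q.x ∧ ξ ∈ q.x then q.F α ξ else
    if α ∈ p.x ∪ q.x ∧ ξ ∈ p.x ∪ q.x then η else ⊥
  c := fun α ξ => if α ∈ p.x ∧ ξ ∈ p.x then p.c α ξ else if α ∈ q.x ∧ ξ ∈ q.x then q.c α ξ else ⊥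
  S := p.S ∪ q.S
  b := fun a => if a ∈ p.S ∪ q.S then b a else ∅
  t := fun a y => if a ∈ p.S ∪ q.S ∧ y ∈ b a then t a y else ⊥

theorem ok_mix {ty : Bool} {p q : Pre X} {η : X} {b : Set X → Set X} {t : Set X → X → X} (hp : Bas ty p) (hq : Bas ty q)
    (hη : η < w1) (hηp : ∀ a ∈ p.S, dl a ≤ η) (hηq : ∀ a ∈ q.S, dl a ≤ η)
    (hF : ∀ α ∈ p.x, α ∈ q.x → ∀ ξ ∈ p.x, ξ ∈ q.x → p.F α ξ = q.F α ξ)
    (hA : ty = false → ∀ a, b a = ∅)
    (hbp : ∀ a ∈ p.S, p.b a ⊆ b a) (hbq : ∀ a ∈ q.S, q.b a ⊆ b a)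
    (hKp : ∀ a ∈ p.S, a ⊆ q.x → ∀ ξ ∈ q.x, ξ ∉ p.x → (ty = false → ξ ∉ Zr a) → (ty = true → ξ ∉ b a) →
      ∃ α ∈ a, dl a ≤ q.F α ξ)
    (hKq : ∀ a ∈ q.S, a ⊆ p.x → ∀ ξ ∈ p.x, ξ ∉ q.x → (ty = false → ξ ∉ Zr a) → (ty = true → ξ ∉ b a) →
      ∃ α ∈ a, dl a ≤ p.F α ξ)
    (hB : ty = true → ∀ a ∈ p.S ∪ q.S, Bok (mix p q η b t) a) : Ok ty (mix p q η b t) := by
  classical
  have hFp : ∀ α ∈ p.x, ∀ ξ ∈ p.x, (mix p q η b t).F α ξ = p.F α ξ := by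
    intro α hα ξ hξ
    show (if α ∈ p.x ∧ ξ ∈ p.x then p.F α ξ else _) = p.F α ξ
    rw [if_pos ⟨hα, hξ⟩]
  have hFq : ∀ α ∈ q.x, ∀ ξ ∈ q.x, (mix p q η b t).F α ξ = q.F α ξ := by
    intro α hα ξ hξ
    show (if α ∈ p.x ∧ ξ ∈ p.x then p.F α ξ else if α ∈ q.x ∧ ξ ∈ q.x then q.F α ξ else _) = q.F α ξ
    by_cases h : α ∈ p.x ∧ ξ ∈ p.x
    · rw [if_pos h]
      exact hF α h.1 hα ξ h.2 hξ
    · rw [if_neg h, if_pos ⟨hα, hξ⟩]
  have hFn : ∀ α ξ, α ∈ p.x ∪ q.x → ξ ∈ p.x ∪ q.x → ¬ (α ∈ p.x ∧ ξ ∈ p.x) → ¬ (α ∈ q.x ∧ ξ ∈ q.x) →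
      (mix p q η b t).F α ξ = η := by
    intro α ξ hα hξ h1 h2
    show (if α ∈ p.x ∧ ξ ∈ p.x then p.F α ξ else if α ∈ q.x ∧ ξ ∈ q.x then q.F α ξ else
      if α ∈ p.x ∪ q.x ∧ ξ ∈ p.x ∪ q.x then η else ⊥) = η
    rw [if_neg h1, if_neg h2, if_pos ⟨hα, hξ⟩]
  have hb : ∀ a ∈ p.S ∪ q.S, (mix p q η b t).b a = b a := by
    intro a ha
    show (if a ∈ p.S ∪ q.S then b a else ∅) = b a
    rw [if_pos ha]
  refine ok_iff.2 ⟨?_, hB⟩
  refine ⟨hp.xc.union hq.xc, ?_, ?_, ?_, hp.Sc.union hq.Sc, ?_, ?_, ?_, ?_, ?_, ?_⟩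
  · intro α ξ
    show (if α ∈ p.x ∧ ξ ∈ p.x then p.F α ξ else if α ∈ q.x ∧ ξ ∈ q.x then q.F α ξ else
      if α ∈ p.x ∪ q.x ∧ ξ ∈ p.x ∪ q.x then η else ⊥) < w1
    split_ifs
    · exact hp.Fv α ξ
    · exact hq.Fv α ξ
    · exact hη
    · exact bot_lt_w1
  · intro α ξ h
    change (if α ∈ p.x ∧ ξ ∈ p.x then p.F α ξ else if α ∈ q.x ∧ ξ ∈ q.x then q.F α ξ else
      if α ∈ p.x ∪ q.x ∧ ξ ∈ p.x ∪ q.x then η else ⊥) ≠ ⊥ at h
    show α ∈ p.x ∪ q.x ∧ ξ ∈ p.x ∪ q.x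
    split_ifs at h with h1 h2 h3
    · exact ⟨Or.inl h1.1, Or.inl h1.2⟩
    · exact ⟨Or.inr h2.1, Or.inr h2.2⟩
    · exact h3
    · exact absurd rfl h
  · intro ν i h
    change (if ν ∈ p.x ∧ i ∈ p.x then p.c ν i else if ν ∈ q.x ∧ i ∈ q.x then q.c ν i else ⊥) ≠ ⊥ at h
    show ν ∈ p.x ∪ q.x ∧ i ∈ p.x ∪ q.x ∧ ν < kk ∧ i < w1 ∧
      (if ν ∈ p.x ∧ i ∈ p.x then p.c ν i else if ν ∈ q.x ∧ i ∈ q.x then q.c ν i else ⊥) < ν
    split_ifs at h ⊢ with h1 h2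
    · have h3 := hp.cv ν i h
      exact ⟨Or.inl h3.1, Or.inl h3.2.1, h3.2.2⟩
    · have h3 := hq.cv ν i h
      exact ⟨Or.inr h3.1, Or.inr h3.2.1, h3.2.2⟩
    · exact absurd rfl h
  · rintro a (ha | ha)
    · exact hp.Sn a ha
    · exact hq.Sn a ha
  · rintro a (ha | ha)
    · exact (hp.Sx a ha).trans subset_union_left
    · exact (hq.Sx a ha).trans subset_union_right
  · rintro a (ha | ha)
    · exact hp.St a ha
    · exact hq.St a ha
  · intro a ha ξ hξ hreg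
    have hA1 : ty = false → ξ ∉ Zr a := by
      intro hty
      subst hty
      intro h
      exact hreg (by simpa [Pre.reg] using h)
    have hB1 : ty = true → ξ ∉ b a := by
      intro hty
      subst hty
      intro h
      apply hreg
      show ξ ∈ (if true then (mix p q η b t).b a else Zr a)
      rw [if_pos rfl, hb a ha]
      exact h
    rcases ha with ha | ha
    · by_cases hξp : ξ ∈ p.x
      · obtain ⟨α, h1, h2⟩ := hp.K a ha ξ hξp (by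
          intro h
          cases ty with
          | false => exact hA1 rfl (by simpa [Pre.reg] using h)
          | true => exact hB1 rfl (hbp a ha (by simpa [Pre.reg] using h)))
        refine ⟨α, h1, ?_⟩
        rw [hFp α (hp.Sx a ha h1) ξ hξp]
        exact h2
      · have hξq : ξ ∈ q.x := hξ.resolve_left hξp
        by_cases haq : a ⊆ q.x
        · obtain ⟨α, h1, h2⟩ := hKp a ha haq ξ hξq hξp hA1 hB1
          refine ⟨α, h1, ?_⟩
          rw [hFq α (haq h1) ξ hξq]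
          exact h2
        · obtain ⟨α, h1, h2⟩ := not_subset.1 haq
          refine ⟨α, h1, ?_⟩
          rw [hFn α ξ (Or.inl (hp.Sx a ha h1)) hξ (fun h => hξp h.2) (fun h => h2 h.1)]
          exact hηp a ha
    · by_cases hξq : ξ ∈ q.x
      · obtain ⟨α, h1, h2⟩ := hq.K a ha ξ hξq (by
          intro h
          cases ty with
          | false => exact hA1 rfl (by simpa [Pre.reg] using h)
          | true => exact hB1 rfl (hbq a ha (by simpa [Pre.reg] using h)))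
        refine ⟨α, h1, ?_⟩
        rw [hFq α (hq.Sx a ha h1) ξ hξq]
        exact h2
      · have hξp : ξ ∈ p.x := hξ.resolve_right hξq
        by_cases hap : a ⊆ p.x
        · obtain ⟨α, h1, h2⟩ := hKq a ha hap ξ hξp hξq hA1 hB1
          refine ⟨α, h1, ?_⟩
          rw [hFp α (hap h1) ξ hξp]
          exact h2
        · obtain ⟨α, h1, h2⟩ := not_subset.1 hap
          refine ⟨α, h1, ?_⟩
          rw [hFn α ξ (Or.inr (hq.Sx a ha h1)) hξ (fun h => h2 h.1) (fun h => hξq h.2)]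
          exact hηq a ha
  · intro a h
    show (if a ∈ p.S ∪ q.S then b a else ∅) = ∅
    rcases h with h | h
    · rw [hA h a, ite_self]
    · have h' : ¬ (a ∈ p.S ∪ q.S) := h
      rw [if_neg h']
  · intro a y hy
    show (if a ∈ p.S ∪ q.S ∧ y ∈ b a then t a y else ⊥) = ⊥
    rw [if_neg]
    rintro ⟨h1, h2⟩
    apply hy
    rw [hb a h1]
    exact h2

end Pool.MP_d8f801_lc.SC
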