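import Pool.Agent.Lib.MP_d8f801_lc.SC.C.Code

/-!
# SC/C: conditions
-/

set_option autoImplicit false

universe u

namespace Pool.MP_d8f801_lc.SC

open Cardinal Set Filter

variable {X : Type u} [Stg X]

/-- requirement (B5) for `a`, `y`: `O` is the predicate of being a condition for smaller heights -/
def Bdec (O : Pre X → Prop) (p : Pre X) (a : Set X) (y : X) : Prop :=
  ∃ τ : Pre X, p.t a y = cd τ ∧ cd τ ∈ p.b a ∧ O τ ∧ τ.x ⊆ p.b a ∧ Le p τ ∧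
    ((∃ s v, (s, v) ∈ en y ∧ cd s ∈ p.b a ∧ v ∈ p.b a ∧ O s ∧ Le τ s) ∨
      ∀ s v, (s, v) ∈ en y → cd s ∈ p.b a → O s → ¬ ∃ r, cd r ∈ p.b a ∧ O r ∧ Le r τ ∧ Le r s)

/-- conditions of height at most `δ` -/
def OkH (ty : Bool) : X → Pre X → Prop :=
  Stg.wfl.fix fun (δ : X) (rec : ∀ δ', δ' < δ → Pre X → Prop) (p : Pre X) =>
    Fit ty p ∧ (∀ a ∈ p.S, dl a < δ) ∧
      (ty = true → ∀ a ∈ p.S, ∀ h : dl a < δ, ∀ y ∈ p.b a, Bdec (rec (dl a) h) p a y)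

theorem okH_iff {ty : Bool} {δ : X} {p : Pre X} : OkH ty δ p ↔
    Fit ty p ∧ (∀ a ∈ p.S, dl a < δ) ∧
      (ty = true → ∀ a ∈ p.S, ∀ y ∈ p.b a, Bdec (OkH ty (dl a)) p a y) := by
  unfold OkH
  rw [WellFounded.fix_eq]
  constructor
  · rintro ⟨h1, h2, h3⟩
    exact ⟨h1, h2, fun ht a ha y hy => h3 ht a ha (h2 a ha) y hy⟩
  · rintro ⟨h1, h2, h3⟩
    exact ⟨h1, h2, fun ht a ha _ y hy => h3 ht a ha y hy⟩

/-- conditions -/
def Ok (ty : Bool) (p : Pre X) : Prop :=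
  Fit ty p ∧ (ty = true → ∀ a ∈ p.S, ∀ y ∈ p.b a, Bdec (OkH ty (dl a)) p a y)

theorem okH_iff_ok {ty : Bool} {δ : X} {p : Pre X} : OkH ty δ p ↔ Ok ty p ∧ ∀ a ∈ p.S, dl a < δ := by
  rw [okH_iff, Ok]
  tauto

theorem Ok.fit {ty : Bool} {p : Pre X} (h : Ok ty p) : Fit ty p := h.1

theorem Ok.fitE {ty : Bool} {p : Pre X} (h : Ok ty p) : FitE X p := ⟨ty, h.1⟩

theorem ok_false {p : Pre X} (h : Fit false p) : Ok false p := ⟨h, fun h' => by cases h'⟩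

/-! ### The order -/

theorem Le.refl' {ty : Bool} {p : Pre X} (h : Fit ty p) : Le p p := by
  refine ⟨Subset.rfl, fun _ _ _ _ => rfl, fun _ _ _ _ => rfl, fun _ _ => Iff.rfl, fun a ha => ?_,
    fun _ _ _ _ => rfl⟩
  cases ty with
  | false => rw [h.b0 a (Or.inl rfl), empty_inter]
  | true => exact inter_eq_left.2 (h.B1 rfl a ha).2

theorem Le.trans' {ty : Bool} {p q r : Pre X} (hr : Fit ty r) (h : Le p q) (h' : Le q r) : Le p r := by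
  have hSx : ∀ a ∈ r.S, a ∈ q.S := fun a ha => (h'.S a (hr.Sx a ha)).2 ha
  have hb : ∀ a ∈ r.S, r.b a ⊆ q.b a := fun a ha => by
    rw [← h'.b a ha]
    exact inter_subset_left
  refine ⟨h'.x.trans h.x, fun α hα ξ hξ => ?_, fun α hα ξ hξ => ?_, fun a ha => ?_, fun a ha => ?_,
    fun a ha y hy => ?_⟩
  · rw [h.F α (h'.x hα) ξ (h'.x hξ), h'.F α hα ξ hξ]
  · rw [h.c α (h'.x hα) ξ (h'.x hξ), h'.c α hα ξ hξ]
  · rw [h.S a (ha.trans h'.x), h'.S a ha]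
  · rw [← h'.b a ha, ← h.b a (hSx a ha), inter_assoc, inter_eq_right.2 h'.x]
  · rw [h.t a (hSx a ha) y (hb a ha hy), h'.t a ha y hy]

/-- the poset -/
def PP (X : Type u) [Stg X] (ty : Bool) : Type u := {p : Pre X // Ok ty p}

instance (ty : Bool) : Preorder (PP X ty) where
  le q p := Le q.1 p.1
  le_refl p := Le.refl' p.2.1
  le_trans p q r h h' := Le.trans' r.2.1 h h'

theorem pp_le {ty : Bool} {p q : PP X ty} : q ≤ p ↔ Le q.1 p.1 := Iff.rfl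

end Pool.MP_d8f801_lc.SC
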