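import Pool.Agent.Lib.MP_d8f801_lc.SC.C.Ok

/-!
# SC/C: restriction of a condition (module C-Restrict)

`ok_rs`. Everything in `Fit` is inherited: for `a ∈ p.S` with `a ⊆ R` we have `(rs p R).b a = p.b a ⊆ R` by `hb` (type A: `∅`), the
values of `F` at `α ∈ a ⊆ p.x ∩ R`, `ξ ∈ p.x ∩ R` and the values of `c` at `γ ∈ p.b a`, `i < dl a` (`i ∈ a`: `Iio (dl a) ⊆ a` because `dl a` is
the least element outside `a`) are unchanged. (B5): `Bdec O p a y → Bdec O (rs p R) a y` for `O = OkH ty (dl a)` with the same `τ`: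
`τ.x ⊆ p.b a ⊆ R`; `Le p τ` gives `Le (rs p R) τ` because `a' ∈ τ.S` implies `a' ⊆ τ.x ⊆ R` (`Fit τ`, from `okH_iff_ok`).
-/

set_option autoImplicit false

universe u

namespace Pool.MP_d8f801_lc.SC

open Cardinal Set Filter

variable {X : Type u} [Stg X]

open Classical in
/-- the restriction of `p` to `R` -/
noncomputable def rs (p : Pre X) (R : Set X) : Pre X where
  x := p.x ∩ R
  F := fun α ξ => if α ∈ R ∧ ξ ∈ R then p.F α ξ else ⊥
  c := fun α ξ => if α ∈ R ∧ ξ ∈ R then p.c α ξ else ⊥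
  S := {a | a ∈ p.S ∧ a ⊆ R}
  b := fun a => if a ∈ p.S ∧ a ⊆ R then p.b a else ∅
  t := fun a y => if a ∈ p.S ∧ a ⊆ R then p.t a y else ⊥

private theorem Restrict_F (p : Pre X) {R : Set X} {α ξ : X} (h : α ∈ R) (h' : ξ ∈ R) :
    (rs p R).F α ξ = p.F α ξ := if_pos ⟨h, h'⟩

private theorem Restrict_c (p : Pre X) {R : Set X} {α ξ : X} (h : α ∈ R) (h' : ξ ∈ R) :
    (rs p R).c α ξ = p.c α ξ := if_pos ⟨h, h'⟩

private theorem Restrict_b (p : Pre X) {R : Set X} {a : Set X} (h : a ∈ p.S) (h' : a ⊆ R) :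
    (rs p R).b a = p.b a := if_pos ⟨h, h'⟩

private theorem Restrict_t (p : Pre X) {R : Set X} {a : Set X} (h : a ∈ p.S) (h' : a ⊆ R) (y : X) :
    (rs p R).t a y = p.t a y := if_pos ⟨h, h'⟩

private theorem Restrict_dl {a : Set X} {i : X} (h : i < dl a) : i ∈ a := by
  classical
  by_contra hi
  have hne : {i : X | i ∉ a}.Nonempty := ⟨i, hi⟩
  unfold dl at h
  rw [dif_pos hne] at h
  exact Stg.wfl.not_lt_min _ hi h

private theorem Restrict_bx {ty : Bool} {p : Pre X} (hp : Fit ty p) {a : Set X} (ha : a ∈ p.S) :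
    p.b a ⊆ p.x := by
  cases ty with
  | false =>
    rw [hp.b0 a (Or.inl rfl)]
    exact empty_subset _
  | true => exact (hp.B1 rfl a ha).2

/-- if `q ≤ s` and `R` contains the support of `s` then `rs q R ≤ s` -/
theorem rs_le {q s : Pre X} (hs : FitE X s) (h : Le q s) {R : Set X} (hR : s.x ⊆ R) : Le (rs q R) s := by
  obtain ⟨ty, hs⟩ := hs
  have hq : ∀ a ∈ s.S, a ∈ q.S ∧ a ⊆ R := fun a ha =>
    ⟨(h.S a (hs.Sx a ha)).2 ha, (hs.Sx a ha).trans hR⟩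
  refine ⟨subset_inter h.x hR, fun α hα ξ hξ => ?_, fun α hα ξ hξ => ?_, fun a ha => ?_,
    fun a ha => ?_, fun a ha y hy => ?_⟩
  · rw [Restrict_F q (hR hα) (hR hξ), h.F α hα ξ hξ]
  · rw [Restrict_c q (hR hα) (hR hξ), h.c α hα ξ hξ]
  · rw [← h.S a ha]
    exact ⟨fun h' => h'.1, fun h' => ⟨h', ha.trans hR⟩⟩
  · rw [Restrict_b q (hq a ha).1 (hq a ha).2, h.b a ha]
  · rw [Restrict_t q (hq a ha).1 (hq a ha).2, h.t a ha y hy]

theorem ok_rs {ty : Bool} {p : Pre X} (hp : Ok ty p) {R : Set X} (hb : ∀ a ∈ p.S, a ⊆ R → p.b a ⊆ R) :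
    Ok ty (rs p R) ∧ Le p (rs p R) := by
  classical
  obtain ⟨hf, hB5⟩ := hp
  have hbx : ∀ a ∈ p.S, a ⊆ R → p.b a ⊆ p.x ∩ R := fun a ha haR =>
    subset_inter (Restrict_bx hf ha) (hb a ha haR)
  refine ⟨⟨?_, ?_⟩, ?_⟩
  · constructor
    · exact hf.xc.mono inter_subset_left
    · intro α ξ
      by_cases h : α ∈ R ∧ ξ ∈ R
      · rw [Restrict_F p h.1 h.2]
        exact hf.Fv α ξ
      · have h1 : (rs p R).F α ξ = ⊥ := if_neg h
        rw [h1]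
        exact lt_of_le_of_lt bot_le (hf.Fv α ξ)
    · intro α ξ h0
      by_cases h : α ∈ R ∧ ξ ∈ R
      · rw [Restrict_F p h.1 h.2] at h0
        obtain ⟨h1, h2⟩ := hf.F0 α ξ h0
        exact ⟨⟨h1, h.1⟩, ⟨h2, h.2⟩⟩
      · exact absurd (if_neg h) h0
    · intro ν i h0
      by_cases h : ν ∈ R ∧ i ∈ R
      · rw [Restrict_c p h.1 h.2] at h0 ⊢
        obtain ⟨h1, h2, h3⟩ := hf.cv ν i h0
        exact ⟨⟨h1, h.1⟩, ⟨h2, h.2⟩, h3⟩
      · exact absurd (if_neg h) h0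
    · exact hf.Sc.mono fun a ha => ha.1
    · exact fun a ha => hf.Sn a ha.1
    · exact fun a ha => subset_inter (hf.Sx a ha.1) ha.2
    · exact fun a ha => hf.St a ha.1
    · intro a ha ξ hξ hreg
      have hreg' : ξ ∉ p.reg ty a := by
        unfold Pre.reg at hreg ⊢
        rw [Restrict_b p ha.1 ha.2] at hreg
        exact hreg
      obtain ⟨α, hα, h1⟩ := hf.K a ha.1 ξ hξ.1 hreg'
      refine ⟨α, hα, ?_⟩
      rw [Restrict_F p (ha.2 hα) hξ.2]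
      exact h1
    · intro a h
      by_cases ha : a ∈ p.S ∧ a ⊆ R
      · rw [Restrict_b p ha.1 ha.2]
        rcases h with h | h
        · exact hf.b0 a (Or.inl h)
        · exact absurd ha h
      · exact if_neg ha
    · intro a y hy
      by_cases ha : a ∈ p.S ∧ a ⊆ R
      · rw [Restrict_b p ha.1 ha.2] at hy
        rw [Restrict_t p ha.1 ha.2]
        exact hf.t0 a y hy
      · exact if_neg ha
    · intro ht a ha
      rw [Restrict_b p ha.1 ha.2]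
      exact ⟨(hf.B1 ht a ha.1).1, hbx a ha.1 ha.2⟩
    · intro ht a ha
      rw [Restrict_b p ha.1 ha.2]
      exact hf.B2 ht a ha.1
    · intro ht a ha
      rw [Restrict_b p ha.1 ha.2]
      exact hf.B2' ht a ha.1
    · intro ht a ha
      rw [Restrict_b p ha.1 ha.2]
      exact hf.B3 ht a ha.1
    · intro ht a ha γ hγ hγk hγ0 β
      rw [Restrict_b p ha.1 ha.2] at hγ ⊢
      rw [hf.B4 ht a ha.1 γ hγ hγk hγ0 β]
      refine exists_congr fun i => and_congr_right fun hi => ?_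
      rw [Restrict_c p (hbx a ha.1 ha.2 hγ).2 (ha.2 (Restrict_dl hi))]
  · intro ht a ha y hy
    rw [Restrict_b p ha.1 ha.2] at hy
    obtain ⟨τ, h1, h2, h3, h4, h5, h6⟩ := hB5 ht a ha.1 y hy
    unfold Bdec
    rw [Restrict_b p ha.1 ha.2, Restrict_t p ha.1 ha.2]
    refine ⟨τ, h1, h2, h3, h4, ?_, h6⟩
    exact rs_le (okH_iff_ok.1 h3).1.fitE h5 (h4.trans (hb a ha.1 ha.2))
  · refine ⟨inter_subset_left, fun α hα ξ hξ => ?_, fun α hα ξ hξ => ?_, fun a ha => ?_,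
      fun a ha => ?_, fun a ha y _ => ?_⟩
    · rw [Restrict_F p hα.2 hξ.2]
    · rw [Restrict_c p hα.2 hξ.2]
    · exact ⟨fun h => ⟨h, ha.trans inter_subset_right⟩, fun h => h.1⟩
    · rw [Restrict_b p ha.1 ha.2]
      exact inter_eq_left.2 (hbx a ha.1 ha.2)
    · rw [Restrict_t p ha.1 ha.2]

theorem rs_congr {p : Pre X} (hp : FitE X p) {R R' : Set X} (h : p.x ∩ R = p.x ∩ R') : rs p R = rs p R' := by
  classical
  obtain ⟨ty, hp⟩ := hp
  have hm : ∀ α ∈ p.x, (α ∈ R ↔ α ∈ R') := by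
    intro α hα
    have h1 : α ∈ p.x ∩ R ↔ α ∈ p.x ∩ R' := by rw [h]
    exact ⟨fun h2 => (h1.1 ⟨hα, h2⟩).2, fun h2 => (h1.2 ⟨hα, h2⟩).2⟩
  have hS : ∀ a, (a ∈ p.S ∧ a ⊆ R ↔ a ∈ p.S ∧ a ⊆ R') := by
    intro a
    refine and_congr_right fun ha => ?_
    exact ⟨fun h1 z hz => (hm z (hp.Sx a ha hz)).1 (h1 hz),
      fun h1 z hz => (hm z (hp.Sx a ha hz)).2 (h1 hz)⟩
  ext1
  · exact h
  · funext α ξ
    by_cases h0 : p.F α ξ = ⊥
    · simp only [rs, h0, ite_self]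
    · obtain ⟨h1, h2⟩ := hp.F0 α ξ h0
      simp only [rs, hm α h1, hm ξ h2]
  · funext α ξ
    by_cases h0 : p.c α ξ = ⊥
    · simp only [rs, h0, ite_self]
    · obtain ⟨h1, h2, _⟩ := hp.cv α ξ h0
      simp only [rs, hm α h1, hm ξ h2]
  · ext a
    exact hS a
  · funext a
    simp only [rs, hS a]
  · funext a y
    simp only [rs, hS a]

theorem rs_self {p : Pre X} (hp : FitE X p) {R : Set X} (h : p.x ⊆ R) : rs p R = p := by
  classical
  obtain ⟨ty, hp⟩ := hp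
  have hS : ∀ a, (a ∈ p.S ∧ a ⊆ R ↔ a ∈ p.S) := fun a =>
    ⟨fun h1 => h1.1, fun h1 => ⟨h1, (hp.Sx a h1).trans h⟩⟩
  ext1
  · exact inter_eq_left.2 h
  · funext α ξ
    by_cases h0 : p.F α ξ = ⊥
    · simp only [rs, h0, ite_self]
    · obtain ⟨h1, h2⟩ := hp.F0 α ξ h0
      exact Restrict_F p (h h1) (h h2)
  · funext α ξ
    by_cases h0 : p.c α ξ = ⊥
    · simp only [rs, h0, ite_self]
    · obtain ⟨h1, h2, _⟩ := hp.cv α ξ h0
      exact Restrict_c p (h h1) (h h2)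
  · ext a
    exact hS a
  · funext a
    by_cases ha : a ∈ p.S
    · exact Restrict_b p ha ((hS a).2 ha).2
    · rw [hp.b0 a (Or.inr ha)]
      exact if_neg fun h1 => ha h1.1
  · funext a y
    by_cases ha : a ∈ p.S
    · exact Restrict_t p ha ((hS a).2 ha).2 y
    · have h1 : p.t a y = ⊥ := hp.t0 a y (by rw [hp.b0 a (Or.inr ha)]; exact notMem_empty y)
      rw [h1]
      exact if_neg fun h1 => ha h1.1

theorem rs_rs (p : Pre X) (R R' : Set X) : rs (rs p R) R' = rs p (R ∩ R') := by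
  classical
  ext1
  · exact inter_assoc _ _ _
  · funext α ξ
    simp only [rs]
    by_cases h1 : α ∈ R ∧ ξ ∈ R
    · by_cases h2 : α ∈ R' ∧ ξ ∈ R'
      · rw [if_pos h2, if_pos h1, if_pos ⟨⟨h1.1, h2.1⟩, ⟨h1.2, h2.2⟩⟩]
      · rw [if_neg h2, if_neg fun h3 => h2 ⟨h3.1.2, h3.2.2⟩]
    · rw [if_neg h1, ite_self, if_neg fun h3 => h1 ⟨h3.1.1, h3.2.1⟩]
  · funext α ξ
    simp only [rs]
    by_cases h1 : α ∈ R ∧ ξ ∈ R
    · by_cases h2 : α ∈ R' ∧ ξ ∈ R'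
      · rw [if_pos h2, if_pos h1, if_pos ⟨⟨h1.1, h2.1⟩, ⟨h1.2, h2.2⟩⟩]
      · rw [if_neg h2, if_neg fun h3 => h2 ⟨h3.1.2, h3.2.2⟩]
    · rw [if_neg h1, ite_self, if_neg fun h3 => h1 ⟨h3.1.1, h3.2.1⟩]
  · ext a
    exact ⟨fun h => ⟨h.1.1, subset_inter h.1.2 h.2⟩, fun h => ⟨⟨h.1,
      h.2.trans inter_subset_left⟩, h.2.trans inter_subset_right⟩⟩
  · funext a
    simp only [rs]
    by_cases h1 : a ∈ p.S ∧ a ⊆ R
    · by_cases h2 : a ⊆ R'
      · rw [if_pos ⟨h1, h2⟩, if_pos h1, if_pos ⟨h1.1, subset_inter h1.2 h2⟩]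
      · rw [if_neg fun h3 => h2 h3.2, if_neg fun h3 => h2 (h3.2.trans inter_subset_right)]
    · rw [if_neg h1, ite_self, if_neg fun h3 => h1 ⟨h3.1, h3.2.trans inter_subset_left⟩]
  · funext a y
    simp only [rs]
    by_cases h1 : a ∈ p.S ∧ a ⊆ R
    · by_cases h2 : a ⊆ R'
      · rw [if_pos ⟨h1, h2⟩, if_pos h1, if_pos ⟨h1.1, subset_inter h1.2 h2⟩]
      · rw [if_neg fun h3 => h2 h3.2, if_neg fun h3 => h2 (h3.2.trans inter_subset_right)]
    · rw [if_neg h1, ite_self, if_neg fun h3 => h1 ⟨h3.1, h3.2.trans inter_subset_left⟩]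

/-- what `q ≤ rs p R` means -/
theorem le_rs_iff {q p : Pre X} {R : Set X} (hp : FitE X p) : Le q (rs p R) ↔
    p.x ∩ R ⊆ q.x ∧ (∀ α ∈ p.x ∩ R, ∀ ξ ∈ p.x ∩ R, q.F α ξ = p.F α ξ ∧ q.c α ξ = p.c α ξ) ∧
      (∀ a, a ⊆ p.x ∩ R → (a ∈ q.S ↔ a ∈ p.S)) ∧
      ∀ a ∈ p.S, a ⊆ R → q.b a ∩ (p.x ∩ R) = p.b a ∧ ∀ y ∈ p.b a, q.t a y = p.t a y := by
  constructor
  · intro h
    refine ⟨h.x, fun α hα ξ hξ => ⟨?_, ?_⟩, fun a ha => ?_, fun a ha haR => ⟨?_, fun y hy => ?_⟩⟩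
    · rw [h.F α hα ξ hξ, Restrict_F p hα.2 hξ.2]
    · rw [h.c α hα ξ hξ, Restrict_c p hα.2 hξ.2]
    · rw [h.S a ha]
      exact ⟨fun h' => h'.1, fun h' => ⟨h', ha.trans inter_subset_right⟩⟩
    · have h1 := h.b a ⟨ha, haR⟩
      rw [Restrict_b p ha haR] at h1
      exact h1
    · have h1 := h.t a ⟨ha, haR⟩ y (by rw [Restrict_b p ha haR]; exact hy)
      rw [Restrict_t p ha haR] at h1
      exact h1
  · rintro ⟨h1, h2, h3, h4⟩
    refine ⟨h1, fun α hα ξ hξ => ?_, fun α hα ξ hξ => ?_, fun a ha => ?_, fun a ha => ?_,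
      fun a ha y hy => ?_⟩
    · rw [Restrict_F p hα.2 hξ.2]
      exact (h2 α hα ξ hξ).1
    · rw [Restrict_c p hα.2 hξ.2]
      exact (h2 α hα ξ hξ).2
    · rw [h3 a ha]
      exact ⟨fun h' => ⟨h', Subset.trans ha inter_subset_right⟩, fun h' => h'.1⟩
    · rw [Restrict_b p ha.1 ha.2]
      exact (h4 a ha.1 ha.2).1
    · rw [Restrict_b p ha.1 ha.2] at hy
      rw [Restrict_t p ha.1 ha.2]
      exact (h4 a ha.1 ha.2).2 y hy

end Pool.MP_d8f801_lc.SC
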