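import Pool.Agent.Lib.MP_d8f801_lc.SC.C.Bok

/-!
# SC/C: limits of decreasing sequences (module C-Seq)

Proof. `Le (r m) (r n)` for `n ≤ m` (`Le.refl'`, `Le.trans'`). Let `L.x = ⋃ n, (r n).x`, `L.F α ξ = (r n).F α ξ` if this is `≠ ⊥` for some `n`
(and `⊥` otherwise), the same for `c`, `L.S = ⋃ n, (r n).S`, `L.b a = ⋃ n, (r n).b a`, `L.t a y = (r n).t a y` if this is `≠ ⊥` for some `n`.
If `α ξ ∈ (r n).x` then `L.F α ξ = (r n).F α ξ` (if `(r m).F α ξ ≠ ⊥` then by `F0` the pair is in the support of `r m`, and `r m`, `r n` agree).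
`Le L (r n)`: for `a ⊆ (r n).x`: `a ∈ (r m).S → a ∈ (r n).S` for all `m`. For `a ∈ (r n).S`: `(r m).b a ∩ (r n).x ⊆ (r n).b a` for all `m`
(`m ≥ n`: `Le.b`; `m < n`: if `a ∈ (r m).S` then `(r m).b a = (r n).b a ∩ (r m).x`, otherwise `(r m).b a = ∅` by `b0`).
`Ok L` by `ok_iff`: `K`: take `n` with `a ∈ (r n).S` and `ξ ∈ (r n).x`. `b2`: `hul a (⋃ n, B n) = ⋃ n, hul a (B n)` for increasing `B n` (a list has only
finitely many elements). `b4`: for `i < dl a` (`i ∈ a` by `dl_sub`) and `γ ∈ (r n).b a` `L.c γ i = (r m).c γ i` for `m ≥ n`. `b5` for `y ∈ (r n).b a`: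
for all `m ≥ n` `Bdec (OkH ..) (r m) a y` holds with the same `τ` (`t` does not change; `cd_inj`). If the first alternative holds for some
`m ≥ n` then it holds for `L`. Otherwise the second alternative holds for all `m ≥ n`, and therefore for `L` (the codes of `s` and `r`
belong to some `(r m).b a`).
-/

set_option autoImplicit false

universe u

namespace Pool.MP_d8f801_lc.SC

open Cardinal Set Filter

variable {X : Type u} [Stg X]

theorem le_seq {ty : Bool} {r : ℕ → Pre X} (h : ∀ n, Ok ty (r n)) (h' : ∀ n, Le (r (n + 1)) (r n)) {m n : ℕ}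
    (hmn : m ≤ n) : Le (r n) (r m) := by
  induction n, hmn using Nat.le_induction with
  | base => exact Le.refl' (h m).fit
  | succ n _ ih => exact Le.trans' (h m).fit (h' n) ih

private theorem seq_bS {ty : Bool} {p : Pre X} (h : Fit ty p) {a : Set X} {y : X} (hy : y ∈ p.b a) :
    ty = true ∧ a ∈ p.S := by
  constructor
  · by_contra hty
    rw [h.b0 a (Or.inl (by simpa using hty))] at hy
    exact absurd hy (notMem_empty _)
  · by_contra ha
    rw [h.b0 a (Or.inr ha)] at hy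
    exact absurd hy (notMem_empty _)

private theorem seq_bx {ty : Bool} {p : Pre X} (h : Fit ty p) {a : Set X} {y : X} (hy : y ∈ p.b a) :
    y ∈ p.x := by
  obtain ⟨hty, ha⟩ := seq_bS h hy
  exact (h.B1 hty a ha).2 hy

open Classical in
/-- the union of a decreasing sequence -/
private noncomputable def seqL (r : ℕ → Pre X) : Pre X where
  x := ⋃ n, (r n).x
  F := fun α ξ => if h : ∃ n, (r n).F α ξ ≠ ⊥ then (r h.choose).F α ξ else ⊥
  c := fun α ξ => if h : ∃ n, (r n).c α ξ ≠ ⊥ then (r h.choose).c α ξ else ⊥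
  S := ⋃ n, (r n).S
  b := fun a => ⋃ n, (r n).b a
  t := fun a y => if h : ∃ n, (r n).t a y ≠ ⊥ then (r h.choose).t a y else ⊥

private theorem seq_F {ty : Bool} {r : ℕ → Pre X} (h : ∀ n, Ok ty (r n)) (h' : ∀ n, Le (r (n + 1)) (r n))
    {n : ℕ} {α ξ : X} (hα : α ∈ (r n).x) (hξ : ξ ∈ (r n).x) : (seqL r).F α ξ = (r n).F α ξ := by
  classical
  show (if h : ∃ n, (r n).F α ξ ≠ ⊥ then (r h.choose).F α ξ else ⊥) = (r n).F α ξ
  split_ifs with hex
  · obtain ⟨h1, h2⟩ := (h hex.choose).fit.F0 _ _ hex.choose_spec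
    rcases le_total hex.choose n with hle | hle
    · exact ((le_seq h h' hle).F α h1 ξ h2).symm
    · exact (le_seq h h' hle).F α hα ξ hξ
  · push Not at hex
    exact (hex n).symm

private theorem seq_c {ty : Bool} {r : ℕ → Pre X} (h : ∀ n, Ok ty (r n)) (h' : ∀ n, Le (r (n + 1)) (r n))
    {n : ℕ} {α ξ : X} (hα : α ∈ (r n).x) (hξ : ξ ∈ (r n).x) : (seqL r).c α ξ = (r n).c α ξ := by
  classical
  show (if h : ∃ n, (r n).c α ξ ≠ ⊥ then (r h.choose).c α ξ else ⊥) = (r n).c α ξ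
  split_ifs with hex
  · obtain ⟨h1, h2, _⟩ := (h hex.choose).fit.cv _ _ hex.choose_spec
    rcases le_total hex.choose n with hle | hle
    · exact ((le_seq h h' hle).c α h1 ξ h2).symm
    · exact (le_seq h h' hle).c α hα ξ hξ
  · push Not at hex
    exact (hex n).symm

private theorem seq_t {ty : Bool} {r : ℕ → Pre X} (h : ∀ n, Ok ty (r n)) (h' : ∀ n, Le (r (n + 1)) (r n))
    {n : ℕ} {a : Set X} {y : X} (hy : y ∈ (r n).b a) : (seqL r).t a y = (r n).t a y := by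
  classical
  show (if h : ∃ n, (r n).t a y ≠ ⊥ then (r h.choose).t a y else ⊥) = (r n).t a y
  split_ifs with hex
  · have h1 : y ∈ (r hex.choose).b a := by
      by_contra hcon
      exact hex.choose_spec ((h hex.choose).fit.t0 a y hcon)
    rcases le_total hex.choose n with hle | hle
    · exact ((le_seq h h' hle).t a (seq_bS (h _).fit h1).2 y h1).symm
    · exact (le_seq h h' hle).t a (seq_bS (h _).fit hy).2 y hy
  · push Not at hex
    exact (hex n).symm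

private theorem seq_S {ty : Bool} {r : ℕ → Pre X} (h : ∀ n, Ok ty (r n)) (h' : ∀ n, Le (r (n + 1)) (r n))
    {m n : ℕ} {a : Set X} (ha : a ∈ (r m).S) (han : a ⊆ (r n).x) : a ∈ (r n).S := by
  rcases le_total m n with hle | hle
  · exact ((le_seq h h' hle).S a ((h m).fit.Sx a ha)).2 ha
  · exact ((le_seq h h' hle).S a han).1 ha

private theorem seq_Sle {ty : Bool} {r : ℕ → Pre X} (h : ∀ n, Ok ty (r n)) (h' : ∀ n, Le (r (n + 1)) (r n))
    {m n : ℕ} {a : Set X} (ha : a ∈ (r m).S) (hmn : m ≤ n) : a ∈ (r n).S :=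
  ((le_seq h h' hmn).S a ((h m).fit.Sx a ha)).2 ha

private theorem seq_b {ty : Bool} {r : ℕ → Pre X} (h : ∀ n, Ok ty (r n)) (h' : ∀ n, Le (r (n + 1)) (r n))
    {m n : ℕ} {a : Set X} {y : X} (hy : y ∈ (r m).b a) (hmn : m ≤ n) : y ∈ (r n).b a := by
  have h1 := (le_seq h h' hmn).b a (seq_bS (h m).fit hy).2
  rw [← h1] at hy
  exact hy.1

private theorem seq_le {ty : Bool} {r : ℕ → Pre X} (h : ∀ n, Ok ty (r n)) (h' : ∀ n, Le (r (n + 1)) (r n))
    (n : ℕ) : Le (seqL r) (r n) := by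
  refine ⟨subset_iUnion (fun n => (r n).x) n, fun α hα ξ hξ => seq_F h h' hα hξ,
    fun α hα ξ hξ => seq_c h h' hα hξ, fun a ha => ⟨fun haS => ?_, fun haS => ?_⟩, fun a ha => ?_,
    fun a ha y hy => seq_t h h' hy⟩
  · obtain ⟨m, hm⟩ := mem_iUnion.1 haS
    exact seq_S h h' hm ha
  · exact mem_iUnion.2 ⟨n, haS⟩
  · ext y
    constructor
    · rintro ⟨hy, hyx⟩
      obtain ⟨m, hm⟩ := mem_iUnion.1 hy
      rcases le_total m n with hle | hle
      · exact seq_b h h' hm hle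
      · rw [← (le_seq h h' hle).b a ha]
        exact ⟨hm, hyx⟩
    · intro hy
      exact ⟨mem_iUnion.2 ⟨n, hy⟩, seq_bx (h n).fit hy⟩

private theorem seq_list {ty : Bool} {r : ℕ → Pre X} (h : ∀ n, Ok ty (r n)) (h' : ∀ n, Le (r (n + 1)) (r n))
    {a : Set X} (n0 : ℕ) (l : List X) (hl : ∀ g ∈ l, g ∈ (⋃ n, (r n).b a) ∩ Iio kk) :
    ∃ n, n0 ≤ n ∧ ∀ g ∈ l, g ∈ (r n).b a ∩ Iio kk := by
  induction l with
  | nil => exact ⟨n0, le_rfl, by simp⟩
  | cons g l ih =>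
    obtain ⟨n, hn, hn2⟩ := ih fun x hx => hl x (List.mem_cons_of_mem _ hx)
    obtain ⟨hg, hgk⟩ := hl g List.mem_cons_self
    obtain ⟨m, hm⟩ := mem_iUnion.1 hg
    refine ⟨max n m, hn.trans (le_max_left _ _), fun x hx => ?_⟩
    rcases List.mem_cons.1 hx with rfl | hx
    · exact ⟨seq_b h h' hm (le_max_right _ _), hgk⟩
    · exact ⟨seq_b h h' (hn2 x hx).1 (le_max_left _ _), (hn2 x hx).2⟩

private theorem seq_bas {ty : Bool} {r : ℕ → Pre X} (h : ∀ n, Ok ty (r n)) (h' : ∀ n, Le (r (n + 1)) (r n)) :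
    Bas ty (seqL r) := by
  classical
  refine ⟨countable_iUnion fun n => (h n).fit.xc, fun α ξ => ?_, fun α ξ hne => ?_, fun ν i hne => ?_,
    countable_iUnion fun n => (h n).fit.Sc, fun a ha => ?_, fun a ha => ?_, fun a ha => ?_,
    fun a ha ξ hξ hr => ?_, fun a ha => ?_, fun a y hy => ?_⟩
  · show (if h : ∃ n, (r n).F α ξ ≠ ⊥ then (r h.choose).F α ξ else ⊥) < w1
    split_ifs with hex
    · exact (h _).fit.Fv _ _
    · exact bot_lt_w1
  · change (if h : ∃ n, (r n).F α ξ ≠ ⊥ then (r h.choose).F α ξ else ⊥) ≠ ⊥ at hne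
    split_ifs at hne with hex
    · obtain ⟨h1, h2⟩ := (h hex.choose).fit.F0 _ _ hex.choose_spec
      exact ⟨mem_iUnion.2 ⟨_, h1⟩, mem_iUnion.2 ⟨_, h2⟩⟩
    · exact absurd rfl hne
  · have hex : ∃ n, (r n).c ν i ≠ ⊥ := by
      by_contra hcon
      apply hne
      show (if h : ∃ n, (r n).c ν i ≠ ⊥ then (r h.choose).c ν i else ⊥) = ⊥
      rw [dif_neg hcon]
    obtain ⟨n, hn⟩ := hex
    obtain ⟨h1, h2, h3, h4, h5⟩ := (h n).fit.cv _ _ hn
    refine ⟨mem_iUnion.2 ⟨_, h1⟩, mem_iUnion.2 ⟨_, h2⟩, h3, h4, ?_⟩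
    rw [seq_c h h' h1 h2]
    exact h5
  · obtain ⟨n, hn⟩ := mem_iUnion.1 ha
    exact (h n).fit.Sn a hn
  · obtain ⟨n, hn⟩ := mem_iUnion.1 ha
    exact ((h n).fit.Sx a hn).trans (subset_iUnion (fun n => (r n).x) n)
  · obtain ⟨n, hn⟩ := mem_iUnion.1 ha
    exact (h n).fit.St a hn
  · obtain ⟨n1, hn1⟩ := mem_iUnion.1 ha
    obtain ⟨n2, hn2⟩ := mem_iUnion.1 hξ
    have haS : a ∈ (r (max n1 n2)).S := seq_Sle h h' hn1 (le_max_left _ _)
    have hξx : ξ ∈ (r (max n1 n2)).x := (le_seq h h' (le_max_right n1 n2)).x hn2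
    have hreg : ξ ∉ (r (max n1 n2)).reg ty a := by
      intro hcon
      apply hr
      unfold Pre.reg at hcon ⊢
      split_ifs at hcon ⊢ with hty
      · exact mem_iUnion.2 ⟨_, hcon⟩
      · exact hcon
    obtain ⟨α, hα, hα2⟩ := (h _).fit.K a haS ξ hξx hreg
    refine ⟨α, hα, ?_⟩
    rw [seq_F h h' ((h _).fit.Sx a haS hα) hξx]
    exact hα2
  · show (⋃ n, (r n).b a) = ∅
    rw [iUnion_eq_empty]
    intro n
    refine (h n).fit.b0 a ?_
    rcases ha with ha | ha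
    · exact Or.inl ha
    · exact Or.inr fun hn => ha (mem_iUnion.2 ⟨n, hn⟩)
  · show (if h : ∃ n, (r n).t a y ≠ ⊥ then (r h.choose).t a y else ⊥) = ⊥
    rw [dif_neg]
    rintro ⟨n, hn⟩
    apply hn
    refine (h n).fit.t0 a y fun hy2 => hy ?_
    exact mem_iUnion.2 ⟨n, hy2⟩

private theorem seq_bok {r : ℕ → Pre X} (h : ∀ n, Ok true (r n)) (h' : ∀ n, Le (r (n + 1)) (r n))
    {a : Set X} (ha : a ∈ (seqL r).S) : Bok (seqL r) a := by
  obtain ⟨n0, hn0⟩ := mem_iUnion.1 ha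
  have hbok : ∀ n, n0 ≤ n → Bok (r n) a := fun n hn => (h n).bok (seq_Sle h h' hn0 hn)
  have hget : ∀ y, y ∈ (seqL r).b a → ∀ m, ∃ n, n0 ≤ n ∧ m ≤ n ∧ y ∈ (r n).b a := by
    intro y hy m
    obtain ⟨n, hn⟩ := mem_iUnion.1 hy
    exact ⟨max n0 (max m n), le_max_left _ _, (le_max_left _ _).trans (le_max_right _ _),
      seq_b h h' hn ((le_max_right _ _).trans (le_max_right _ _))⟩
  refine ⟨fun y hy => mem_iUnion.2 ⟨n0, (hbok n0 le_rfl).b1 hy⟩, fun y hy => ?_, ?_, fun ξ hξ hk => ?_,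
    fun i hi hw => ?_, fun γ hγ hk h0 β => ?_, fun y hy => ?_⟩
  · obtain ⟨n, _, _, hn⟩ := hget y hy 0
    exact mem_iUnion.2 ⟨n, seq_bx (h n).fit hn⟩
  · ext y
    constructor
    · intro hy
      obtain ⟨n, hn1, _, hn⟩ := hget y hy 0
      rw [(hbok n hn1).b2] at hn
      obtain ⟨ζ, hζ, l, hl, hl2⟩ := hn
      exact ⟨ζ, hζ, l, fun g hg => ⟨mem_iUnion.2 ⟨n, (hl g hg).1⟩, (hl g hg).2⟩, hl2⟩
    · rintro ⟨ζ, hζ, l, hl, hl2⟩
      obtain ⟨n, hn1, hn2⟩ := seq_list h h' (a := a) n0 l hl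
      refine mem_iUnion.2 ⟨n, ?_⟩
      rw [(hbok n hn1).b2]
      exact ⟨ζ, hζ, l, hn2, hl2⟩
  · obtain ⟨n, hn1, _, hn⟩ := hget ξ hξ 0
    exact (hbok n hn1).b2' ξ hn hk
  · obtain ⟨n, hn1, _, hn⟩ := hget i hi 0
    exact (hbok n hn1).b3 i hn hw
  · constructor
    · rintro ⟨hβ, hβγ⟩
      obtain ⟨m, hm1, _, hm⟩ := hget β hβ 0
      obtain ⟨n, hn1, hn2, hn⟩ := hget γ hγ m
      have hβn : β ∈ (r n).b a := seq_b h h' hm hn2
      obtain ⟨i, hi, hi2⟩ := ((hbok n hn1).b4 γ hn hk h0 β).1 ⟨hβn, hβγ⟩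
      refine ⟨i, hi, ?_⟩
      rw [seq_c h h' (seq_bx (h n).fit hn)
        ((hbok n hn1).bx ((hbok n hn1).b1 (dl_sub hi)))]
      exact hi2
    · rintro ⟨i, hi, hi2⟩
      obtain ⟨n, hn1, _, hn⟩ := hget γ hγ 0
      rw [seq_c h h' (seq_bx (h n).fit hn)
        ((hbok n hn1).bx ((hbok n hn1).b1 (dl_sub hi)))] at hi2
      obtain ⟨h1, h2⟩ := ((hbok n hn1).b4 γ hn hk h0 β).2 ⟨i, hi, hi2⟩
      exact ⟨mem_iUnion.2 ⟨n, h1⟩, h2⟩
  · obtain ⟨n, hn1, _, hn⟩ := hget y hy 0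
    obtain ⟨τ, h1, h2, h3, h4, h5, _⟩ := (hbok n hn1).b5 y hn
    have hfit : ∀ {σ : Pre X}, OkH true (dl a) σ → Ok true σ := fun hσ => (okH_iff_ok.1 hσ).1
    have hall : ∀ m, n ≤ m →
        ((∃ s v, (s, v) ∈ en y ∧ cd s ∈ (r m).b a ∧ v ∈ (r m).b a ∧ OkH true (dl a) s ∧ Le τ s) ∨
          ∀ s v, (s, v) ∈ en y → cd s ∈ (r m).b a → OkH true (dl a) s →
            ¬ ∃ r', cd r' ∈ (r m).b a ∧ OkH true (dl a) r' ∧ Le r' τ ∧ Le r' s) := by
      intro m hm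
      obtain ⟨τ', g1, g2, g3, g4, g5, g6⟩ := (hbok m (hn1.trans hm)).b5 y (seq_b h h' hn hm)
      have ht : (r m).t a y = (r n).t a y := (le_seq h h' hm).t a (seq_Sle h h' hn0 hn1) y hn
      have hττ : τ' = τ := cd_inj (hfit g3).fitE (hfit h3).fitE (by rw [← g1, ht, h1])
      subst hττ
      exact g6
    refine ⟨τ, ?_, mem_iUnion.2 ⟨n, h2⟩, h3, fun z hz => mem_iUnion.2 ⟨n, h4 hz⟩,
      Le.trans' (hfit h3).fit (seq_le h h' n) h5, ?_⟩
    · rw [seq_t h h' hn]; exact h1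
    · by_cases hex : ∃ m, n ≤ m ∧ ∃ s v, (s, v) ∈ en y ∧ cd s ∈ (r m).b a ∧ v ∈ (r m).b a ∧
          OkH true (dl a) s ∧ Le τ s
      · obtain ⟨m, _, s, v, g1, g2, g3, g4, g5⟩ := hex
        exact Or.inl ⟨s, v, g1, mem_iUnion.2 ⟨m, g2⟩, mem_iUnion.2 ⟨m, g3⟩, g4, g5⟩
      · right
        rintro s v hsv hs hOs ⟨r', hr1, hr2, hr3, hr4⟩
        obtain ⟨m1, hm1⟩ := mem_iUnion.1 hs
        obtain ⟨m2, hm2⟩ := mem_iUnion.1 hr1
        have hm : n ≤ max n (max m1 m2) := le_max_left _ _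
        have k1 : m1 ≤ max n (max m1 m2) := (le_max_left _ _).trans (le_max_right _ _)
        have k2 : m2 ≤ max n (max m1 m2) := (le_max_right _ _).trans (le_max_right _ _)
        rcases hall _ hm with hA | hB
        · exact hex ⟨_, hm, hA⟩
        · exact hB s v hsv (seq_b h h' hm1 k1) hOs ⟨r', seq_b h h' hm2 k2, hr2, hr3, hr4⟩

theorem lim_seq {ty : Bool} {r : ℕ → Pre X} (h : ∀ n, Ok ty (r n)) (h' : ∀ n, Le (r (n + 1)) (r n)) :
    ∃ L, Ok ty L ∧ (∀ n, Le L (r n)) ∧ L.x = ⋃ n, (r n).x ∧ L.S = ⋃ n, (r n).S ∧ ∀ a, L.b a = ⋃ n, (r n).b a := by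
  refine ⟨seqL r, ok_iff.2 ⟨seq_bas h h', fun ht a ha => ?_⟩, seq_le h h', rfl, rfl, fun a => rfl⟩
  subst ht
  exact seq_bok h h' ha

end Pool.MP_d8f801_lc.SC
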